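import Pool.Agent.H62.FK.Def

/-!
# Edge Folkman graphs without `H₀` (MP_eb1b1c_co): cuts and cliques of five vertices

`cutb`: the maximal cut of `Γ` inside `W` from the numbers `Nn Γ W x y` of the cliques of five vertices.
Proof. (1) `∑_(x ∈ R, y ∈ W \ R) Nn x y ≤ 3/10 ∑_(x, y ∈ W) Nn x y`: both sides are sums over `t : Fin 5 → V`, `t` a clique in `W` (`F t`, symmetric under permutations of `Fin 5`), of
`[t 0 ∈ R] [t 1 ∉ R]` and of `1`; the first sum does not change if `(0, 1)` is replaced by `(i, j)`, `i ≠ j` (`Equiv.sum_comp`), and for every `t` the sum over the 20 pairs is `a (5 - a) ≤ 6`.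
(2) `1 ≤ x + ε + (x - 1)² / (4 ε)` for `x = Nn / μ` (`((x - 1)/(2 √ε) + √ε)² ≥ 0`, or multiply by `4 ε`). Sum over the edges of the cut.
-/

set_option autoImplicit false

open scoped Classical

noncomputable section

namespace Pool.Agent.H62.FK

variable {V : Type} [Fintype V] (Γ : SimpleGraph V)

/-- the ordered cliques of five vertices in `W` -/
private def F5 (W : Finset V) : Finset (Fin 5 → V) :=
  Finset.univ.filter fun t => (∀ i, t i ∈ W) ∧ ∀ i j, i ≠ j → Γ.Adj (t i) (t j)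

private lemma Nn_card (W : Finset V) (x y : V) (hx : x ∈ W) (hy : y ∈ W) :
    Nn Γ W x y = ((F5 Γ W).filter fun t => t 0 = x ∧ t 1 = y).card := by
  unfold Nn F5
  refine Finset.card_bij' (fun z _ => Fin.cons x (Fin.cons y z : Fin 4 → V))
    (fun t _ => fun i => t i.succ.succ) ?_ ?_ ?_ ?_
  · intro z hz
    simp only [Finset.mem_filter, Finset.mem_univ, true_and] at hz ⊢
    obtain ⟨hzW, hxy, hxz, hyz, hzz⟩ := hz
    refine ⟨⟨?_, ?_⟩, ?_, ?_⟩
    · intro i
      refine Fin.cases ?_ (fun i => ?_) i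
      · simpa using hx
      · refine Fin.cases ?_ (fun i => ?_) i
        · simpa using hy
        · simpa using hzW i
    · intro i j
      refine Fin.cases ?_ (fun i => ?_) i
      · refine Fin.cases ?_ (fun j => ?_) j
        · intro h; exact absurd rfl h
        · refine Fin.cases ?_ (fun j => ?_) j
          · intro _; simpa using hxy
          · intro _; simpa using hxz j
      · refine Fin.cases ?_ (fun i => ?_) i
        · refine Fin.cases ?_ (fun j => ?_) j
          · intro _; simpa using hxy.symm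
          · refine Fin.cases ?_ (fun j => ?_) j
            · intro h; exact absurd rfl h
            · intro _; simpa using hyz j
        · refine Fin.cases ?_ (fun j => ?_) j
          · intro _; simpa using (hxz i).symm
          · refine Fin.cases ?_ (fun j => ?_) j
            · intro _; simpa using (hyz i).symm
            · intro h
              have : i ≠ j := fun e => h (by rw [e])
              simpa using hzz i j this
    · simp
    · rfl
  · intro t ht
    simp only [Finset.mem_filter, Finset.mem_univ, true_and] at ht ⊢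
    obtain ⟨⟨htW, htA⟩, h0, h1⟩ := ht
    refine ⟨fun i => htW _, ?_, fun i => ?_, fun i => ?_, fun i j hij => ?_⟩
    · rw [← h0, ← h1]; exact htA 0 1 (by decide)
    · rw [← h0]; exact htA 0 _ (Fin.succ_ne_zero _).symm
    · rw [← h1]
      refine htA 1 _ ?_
      intro h
      have : (Fin.succ (0 : Fin 4)) = i.succ.succ := h
      exact (Fin.succ_ne_zero i) (Fin.succ_injective _ this).symm
    · refine htA _ _ ?_
      intro h
      exact hij (Fin.succ_injective _ (Fin.succ_injective _ h))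
  · intro z hz
    funext i
    simp
  · intro t ht
    simp only [Finset.mem_filter, Finset.mem_univ, true_and] at ht
    obtain ⟨_, h0, h1⟩ := ht
    funext i
    refine Fin.cases ?_ (fun i => ?_) i
    · simpa using h0.symm
    · refine Fin.cases ?_ (fun i => ?_) i
      · simpa using h1.symm
      · simp

private lemma sum_Nn (W A B : Finset V) (hA : A ⊆ W) (hB : B ⊆ W) :
    ∑ x ∈ A, ∑ y ∈ B, (Nn Γ W x y : ℝ) =
      ∑ t ∈ F5 Γ W, (if t 0 ∈ A then (1 : ℝ) else 0) * (if t 1 ∈ B then 1 else 0) := by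
  have h1 : ∀ x ∈ A, ∀ y ∈ B, (Nn Γ W x y : ℝ) =
      ∑ t ∈ F5 Γ W, (if t 0 = x then (1 : ℝ) else 0) * (if t 1 = y then 1 else 0) := by
    intro x hx y hy
    rw [Nn_card Γ W x y (hA hx) (hB hy), Finset.card_filter]
    push_cast
    refine Finset.sum_congr rfl fun t _ => ?_
    by_cases h : t 0 = x <;> by_cases h' : t 1 = y <;> simp [h, h']
  rw [Finset.sum_congr rfl fun x hx => Finset.sum_congr rfl fun y hy => h1 x hx y hy]
  have h2 : ∀ x ∈ A, (∑ y ∈ B, ∑ t ∈ F5 Γ W,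
      (if t 0 = x then (1 : ℝ) else 0) * (if t 1 = y then 1 else 0)) =
      ∑ t ∈ F5 Γ W, (if t 0 = x then (1 : ℝ) else 0) * (if t 1 ∈ B then 1 else 0) := by
    intro x _
    rw [Finset.sum_comm]
    refine Finset.sum_congr rfl fun t _ => ?_
    rw [← Finset.mul_sum, Finset.sum_ite_eq]
  rw [Finset.sum_congr rfl h2, Finset.sum_comm]
  refine Finset.sum_congr rfl fun t _ => ?_
  rw [← Finset.sum_mul, Finset.sum_ite_eq]

private lemma exPerm (i j : Fin 5) (h : i ≠ j) : ∃ σ : Equiv.Perm (Fin 5), σ 0 = i ∧ σ 1 = j := by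
  have h01 : (0 : Fin 5) ≠ 1 := by decide
  set k : Fin 5 := Equiv.swap 0 i j with hk
  have hk0 : (0 : Fin 5) ≠ k := by
    intro e
    rw [hk] at e
    have e2 := congrArg (Equiv.swap (0 : Fin 5) i) e
    rw [Equiv.swap_apply_left, Equiv.swap_apply_self] at e2
    exact h e2
  refine ⟨Equiv.swap 0 i * Equiv.swap 1 k, ?_, ?_⟩
  · rw [Equiv.Perm.mul_apply, Equiv.swap_apply_of_ne_of_ne h01 hk0, Equiv.swap_apply_left]
  · rw [Equiv.Perm.mul_apply, Equiv.swap_apply_left, hk, Equiv.swap_apply_self]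

private lemma symF (W : Finset V) (f : V → V → ℝ) (i j : Fin 5) (h : i ≠ j) :
    ∑ t ∈ F5 Γ W, f (t i) (t j) = ∑ t ∈ F5 Γ W, f (t 0) (t 1) := by
  obtain ⟨σ, h0, h1⟩ := exPerm i j h
  refine Finset.sum_bij' (fun t _ => t ∘ σ) (fun t _ => t ∘ σ.symm) ?_ ?_ ?_ ?_ ?_
  · intro t ht
    simp only [F5, Finset.mem_filter, Finset.mem_univ, true_and] at ht ⊢
    exact ⟨fun k => ht.1 _, fun k l hkl => ht.2 _ _ fun e => hkl (σ.injective e)⟩
  · intro t ht
    simp only [F5, Finset.mem_filter, Finset.mem_univ, true_and] at ht ⊢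
    exact ⟨fun k => ht.1 _, fun k l hkl => ht.2 _ _ fun e => hkl (σ.symm.injective e)⟩
  · intro t _
    funext k
    simp
  · intro t _
    funext k
    simp
  · intro t _
    simp [h0, h1]

private lemma key (W R : Finset V) (hR : R ⊆ W) :
    ∑ x ∈ R, ∑ y ∈ W \ R, (Nn Γ W x y : ℝ) ≤
      3 / 10 * ∑ x ∈ W, ∑ y ∈ W, (Nn Γ W x y : ℝ) := by
  rw [sum_Nn Γ W R (W \ R) hR Finset.sdiff_subset, sum_Nn Γ W W W subset_rfl subset_rfl]
  set f : V → V → ℝ := fun x y => (if x ∈ R then (1 : ℝ) else 0) * (if y ∈ W \ R then 1 else 0)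
    with hf
  have hW : ∑ t ∈ F5 Γ W, (if t 0 ∈ W then (1 : ℝ) else 0) * (if t 1 ∈ W then 1 else 0) =
      ∑ t ∈ F5 Γ W, (1 : ℝ) := by
    refine Finset.sum_congr rfl fun t ht => ?_
    simp only [F5, Finset.mem_filter, Finset.mem_univ, true_and] at ht
    rw [if_pos (ht.1 0), if_pos (ht.1 1), one_mul]
  rw [hW]
  have hS : ∀ i j : Fin 5, ∑ t ∈ F5 Γ W, f (t i) (t j) =
      if i = j then 0 else ∑ t ∈ F5 Γ W, f (t 0) (t 1) := by
    intro i j
    by_cases h : i = j
    · subst h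
      rw [if_pos rfl]
      refine Finset.sum_eq_zero fun t _ => ?_
      simp only [hf]
      by_cases hi : t i ∈ R <;> simp [hi]
    · rw [if_neg h]
      exact symF Γ W f i j h
  have h20 : ∑ i : Fin 5, ∑ j : Fin 5, ∑ t ∈ F5 Γ W, f (t i) (t j) =
      20 * ∑ t ∈ F5 Γ W, f (t 0) (t 1) := by
    rw [Finset.sum_congr rfl fun i _ => Finset.sum_congr rfl fun j _ => hS i j]
    generalize ∑ t ∈ F5 Γ W, f (t 0) (t 1) = S
    simp [Fin.sum_univ_succ]
    ring
  have h6 : ∑ i : Fin 5, ∑ j : Fin 5, ∑ t ∈ F5 Γ W, f (t i) (t j) ≤ 6 * ∑ t ∈ F5 Γ W, (1 : ℝ) := by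
    have e1 : ∑ i : Fin 5, ∑ j : Fin 5, ∑ t ∈ F5 Γ W, f (t i) (t j) =
        ∑ t ∈ F5 Γ W, ∑ i : Fin 5, ∑ j : Fin 5, f (t i) (t j) := by
      rw [Finset.sum_congr rfl fun i _ => Finset.sum_comm]
      exact Finset.sum_comm
    rw [e1, Finset.mul_sum]
    refine Finset.sum_le_sum fun t ht => ?_
    simp only [F5, Finset.mem_filter, Finset.mem_univ, true_and] at ht
    have e2 : ∀ i j : Fin 5, f (t i) (t j) = (if t i ∈ R then (1 : ℝ) else 0) *
        (1 - (if t j ∈ R then (1 : ℝ) else 0)) := by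
      intro i j
      simp only [hf]
      by_cases hj : t j ∈ R <;> simp [hj, ht.1 j]
    have e3 : ∑ i : Fin 5, ∑ j : Fin 5, f (t i) (t j) =
        (∑ i : Fin 5, (if t i ∈ R then (1 : ℝ) else 0)) *
          (5 - ∑ i : Fin 5, (if t i ∈ R then (1 : ℝ) else 0)) := by
      rw [Finset.sum_congr rfl fun i _ => Finset.sum_congr rfl fun j _ => e2 i j]
      rw [Finset.sum_mul]
      refine Finset.sum_congr rfl fun i _ => ?_
      rw [← Finset.mul_sum, Finset.sum_sub_distrib]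
      simp
    have e4 : ∑ i : Fin 5, (if t i ∈ R then (1 : ℝ) else 0) =
        ((Finset.univ.filter fun i : Fin 5 => t i ∈ R).card : ℝ) := by
      rw [Finset.card_filter]; push_cast; rfl
    rw [e3, e4]
    generalize (Finset.univ.filter fun i : Fin 5 => t i ∈ R).card = a
    have : (0 : ℝ) ≤ ((a : ℝ) - 2) * ((a : ℝ) - 3) := by
      rcases le_or_gt a 2 with h | h
      · have : (a : ℝ) ≤ 2 := by exact_mod_cast h
        nlinarith
      · have : (3 : ℝ) ≤ a := by exact_mod_cast h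
        nlinarith
    nlinarith
  rw [h20] at h6
  have : ∑ t ∈ F5 Γ W, (if t 0 ∈ R then (1 : ℝ) else 0) * (if t 1 ∈ W \ R then 1 else 0) =
      ∑ t ∈ F5 Γ W, f (t 0) (t 1) := rfl
  rw [this]
  linarith

theorem cutb (W : Finset V) (μ ε : ℝ) (hμ : 0 < μ) (hε : 0 < ε) :
    (MC0 Γ W : ℝ) ≤ 3 / 10 / μ * (∑ x ∈ W, ∑ y ∈ W, (Nn Γ W x y : ℝ)) +
      ∑ x ∈ W, ∑ y ∈ W, if Γ.Adj x y then ε + ((Nn Γ W x y : ℝ) / μ - 1) ^ 2 / (4 * ε) else 0 := by
  obtain ⟨R, hR, hsup⟩ := Finset.exists_mem_eq_sup W.powerset ⟨∅, by simp⟩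
    (fun R => cut0 Γ R (W \ R))
  have hRW : R ⊆ W := Finset.mem_powerset.1 hR
  have hMC : MC0 Γ W = cut0 Γ R (W \ R) := hsup
  rw [hMC]
  have hc : (cut0 Γ R (W \ R) : ℝ) = ∑ x ∈ R, ∑ y ∈ W \ R, if Γ.Adj x y then (1 : ℝ) else 0 := by
    unfold cut0
    rw [Finset.card_filter, Finset.sum_product]
    push_cast
    rfl
  rw [hc]
  have hpt : ∀ x y : V, (if Γ.Adj x y then (1 : ℝ) else 0) ≤ (Nn Γ W x y : ℝ) / μ +
      if Γ.Adj x y then ε + ((Nn Γ W x y : ℝ) / μ - 1) ^ 2 / (4 * ε) else 0 := by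
    intro x y
    by_cases h : Γ.Adj x y
    · rw [if_pos h, if_pos h]
      set u : ℝ := (Nn Γ W x y : ℝ) / μ
      have h4 : (u - 1) ^ 2 / (4 * ε) + ε + (u - 1) = ((u - 1) + 2 * ε) ^ 2 / (4 * ε) := by
        field_simp
        ring
      have h5 : 0 ≤ ((u - 1) + 2 * ε) ^ 2 / (4 * ε) := by positivity
      linarith
    · rw [if_neg h, if_neg h, add_zero]
      positivity
  have h1 : ∑ x ∈ R, ∑ y ∈ W \ R, (if Γ.Adj x y then (1 : ℝ) else 0) ≤
      ∑ x ∈ R, ∑ y ∈ W \ R, ((Nn Γ W x y : ℝ) / μ +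
        if Γ.Adj x y then ε + ((Nn Γ W x y : ℝ) / μ - 1) ^ 2 / (4 * ε) else 0) :=
    Finset.sum_le_sum fun x _ => Finset.sum_le_sum fun y _ => hpt x y
  refine h1.trans ?_
  simp only [Finset.sum_add_distrib]
  refine add_le_add ?_ ?_
  · have h2 : ∑ x ∈ R, ∑ y ∈ W \ R, (Nn Γ W x y : ℝ) / μ =
        (∑ x ∈ R, ∑ y ∈ W \ R, (Nn Γ W x y : ℝ)) / μ := by
      rw [Finset.sum_div]
      exact Finset.sum_congr rfl fun x _ => (Finset.sum_div _ _ _).symm
    rw [h2]
    have h3 := div_le_div_of_nonneg_right (key Γ W R hRW) hμ.le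
    refine h3.trans (le_of_eq ?_)
    ring
  · have hnn : ∀ x y : V, 0 ≤ (if Γ.Adj x y then
        ε + ((Nn Γ W x y : ℝ) / μ - 1) ^ 2 / (4 * ε) else (0 : ℝ)) := by
      intro x y
      split_ifs
      · positivity
      · exact le_rfl
    refine (Finset.sum_le_sum fun x _ =>
      Finset.sum_le_sum_of_subset_of_nonneg Finset.sdiff_subset fun y _ _ => hnn x y).trans ?_
    exact Finset.sum_le_sum_of_subset_of_nonneg hRW fun x _ _ =>
      Finset.sum_nonneg fun y _ => hnn x y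

end Pool.Agent.H62.FK
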