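import Pool.Agent.H62.FK.Pr

/-!
# Edge Folkman graphs without `H₀` (MP_eb1b1c_co): the maximal cut of the random link graph

`lse`: `E MC(v) ≤ E ((e^λ - 1) / (λ r) MC0(U) + (log 2 / λ) |U|)`.
Proof. `a(U) = ((e^λ - 1)/r MC0(U) + |U| log 2)/λ`. It is enough that `∑_c exp (λ MC(c) - λ a(U(c))) ≤ ∑_c 1` (as `e^x ≥ 1 + x`); split by `U(c) = W` (`W ⊆ N(v)`) and bound
`exp (λ MC) ≤ ∑_(R ⊆ W) exp (λ cut c R (W \ R))`. For fixed `W`, `R`: `∑_(c : U(c) = W) exp (λ cut c R (W \ R)) = #{c : U(c) = W} * (1 + (e^λ - 1)/r)^(cut0 R (W \ R))`: both sides are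
sums over `c` of products over `e : Sym2 V` (`sum_prod`): the factor at `e = s(v, x)`, `x ∈ N(v)`, is the indicator of `c e = 0` (`x ∈ W`) or of `c e ≠ 0`, the factor at the edges between `R` and
`W \ R` is `1 + (e^λ - 1) [c e = 0]` (these edges do not contain `v`, and `(x, y) ↦ s(x, y)` is injective on `R ×ˢ (W \ R)`), the other factors are `1`.
Finally `1 + x ≤ e^x`.
-/

set_option autoImplicit false

open scoped Classical

noncomputable section

namespace Pool.Agent.H62.FK

variable {V : Type} [Fintype V] (Γ : SimpleGraph V) {r : ℕ} [NeZero r]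

private theorem sp (F : Sym2 V → Fin r → ℝ) :
    ∑ c : Sym2 V → Fin r, ∏ e, F e (c e) = ∏ e, ∑ j, F e j := by
  rw [Finset.prod_univ_sum, Fintype.piFinset_univ]

omit [Fintype V] in
private theorem inj_pr {R W : Finset V} : Set.InjOn (fun w : V × V => s(w.1, w.2))
    (((R ×ˢ (W \ R)).filter fun w => Γ.Adj w.1 w.2 : Finset (V × V)) : Set (V × V)) := by
  rintro ⟨x, y⟩ h1 ⟨x', y'⟩ h2 h
  have h1' := (Finset.mem_product.1 (Finset.mem_filter.1 (Finset.mem_coe.1 h1)).1)
  have h2' := (Finset.mem_product.1 (Finset.mem_filter.1 (Finset.mem_coe.1 h2)).1)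
  simp only [Finset.mem_sdiff] at h1' h2'
  have h3 : s(x, y) = s(x', y') := h
  rcases Sym2.eq_iff.1 h3 with ⟨h4, h5⟩ | ⟨h4, h5⟩
  · rw [h4, h5]
  · exact absurd (h4 ▸ h1'.1) h2'.2.2

/-- the edges of the cut -/
private def Bs (R W : Finset V) : Finset (Sym2 V) :=
  ((R ×ˢ (W \ R)).filter fun w => Γ.Adj w.1 w.2).image fun w => s(w.1, w.2)

private theorem bs_card (R W : Finset V) : (Bs Γ R W).card = cut0 Γ R (W \ R) :=
  Finset.card_image_of_injOn (inj_pr Γ)

private theorem cut_eq (c : Sym2 V → Fin r) (R W : Finset V) :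
    cut Γ c R (W \ R) = ((Bs Γ R W).filter fun e => c e = 0).card := by
  have h1 : (Bs Γ R W).filter (fun e => c e = 0) =
      (((R ×ˢ (W \ R)).filter fun w => Γ.Adj w.1 w.2).filter fun w => c s(w.1, w.2) = 0).image
        fun w => s(w.1, w.2) := by
    unfold Bs
    rw [Finset.filter_image]
  rw [h1, Finset.card_image_of_injOn
    ((inj_pr Γ).mono (Finset.coe_subset.2 (Finset.filter_subset _ _)))]
  unfold cut
  refine congrArg Finset.card (Finset.ext fun w => ?_)
  rw [Finset.mem_filter, Finset.mem_filter, Finset.mem_filter]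
  exact (and_assoc).symm

private theorem key1 (v : V) (lam : ℝ) {W R : Finset V} (hW : ∀ x ∈ W, Γ.Adj v x)
    (hR : R ⊆ W) : ∑ c : Sym2 V → Fin r, (if U Γ c v = W then
      Real.exp (lam * (cut Γ c R (W \ R) : ℝ)) else 0) =
    (∑ c : Sym2 V → Fin r, if U Γ c v = W then (1 : ℝ) else 0) *
      (1 + (Real.exp lam - 1) / r) ^ cut0 Γ R (W \ R) := by
  obtain ⟨A, hA⟩ : ∃ A : Sym2 V → Fin r → ℝ, A = fun e j =>
      if ∀ x, e = s(v, x) → Γ.Adj v x → (x ∈ W ↔ j = 0) then (1 : ℝ) else 0 := ⟨_, rfl⟩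
  obtain ⟨B, hB⟩ : ∃ B : Sym2 V → Fin r → ℝ, B = fun e j =>
      if e ∈ Bs Γ R W then (if j = 0 then Real.exp lam else 1) else 1 := ⟨_, rfl⟩
  have hUA : ∀ c : Sym2 V → Fin r, (∏ e, A e (c e)) = if U Γ c v = W then (1 : ℝ) else 0 := by
    intro c
    rw [hA]
    simp only
    rw [Finset.prod_boole]
    have h1 : (∀ e ∈ (Finset.univ : Finset (Sym2 V)), ∀ x, e = s(v, x) → Γ.Adj v x →
        (x ∈ W ↔ c e = 0)) ↔ U Γ c v = W := by
      constructor
      · intro h
        ext x
        unfold U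
        rw [Finset.mem_filter]
        constructor
        · rintro ⟨_, h2, h3⟩
          exact (h _ (Finset.mem_univ _) x rfl h2).2 h3
        · intro hx
          exact ⟨Finset.mem_univ _, hW x hx, (h _ (Finset.mem_univ _) x rfl (hW x hx)).1 hx⟩
      · rintro h e - x rfl hx
        rw [← h]
        unfold U
        rw [Finset.mem_filter]
        exact ⟨fun h2 => h2.2.2, fun h2 => ⟨Finset.mem_univ _, hx, h2⟩⟩
    by_cases h2 : U Γ c v = W
    · rw [if_pos h2, if_pos (h1.2 h2)]
    · rw [if_neg h2, if_neg fun h3 => h2 (h1.1 h3)]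
  have hcB : ∀ c : Sym2 V → Fin r, (∏ e, B e (c e)) = Real.exp (lam * (cut Γ c R (W \ R) : ℝ)) := by
    intro c
    rw [hB, cut_eq, mul_comm, Real.exp_nat_mul]
    simp only
    rw [Finset.prod_ite_mem, Finset.univ_inter, Finset.prod_ite, Finset.prod_const, Finset.prod_const_one, mul_one]
  have hAB : ∀ e : Sym2 V, ∑ j, A e j * B e j =
      (∑ j, A e j) * (if e ∈ Bs Γ R W then 1 + (Real.exp lam - 1) / r else 1) := by
    intro e
    by_cases he : e ∈ Bs Γ R W
    · have h1 : ∀ j, A e j = 1 := by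
        intro j
        rw [hA]
        simp only
        rw [if_pos]
        intro x hx hvx
        exfalso
        unfold Bs at he
        obtain ⟨⟨y, z⟩, hyz, hyz'⟩ := Finset.mem_image.1 he
        have h2 := Finset.mem_product.1 (Finset.mem_filter.1 hyz).1
        have h3 : s(y, z) = s(v, x) := hyz'.trans hx
        have hy : y ∈ W := hR h2.1
        have hz : z ∈ W := (Finset.mem_sdiff.1 h2.2).1
        rcases Sym2.eq_iff.1 h3 with ⟨h4, _⟩ | ⟨_, h5⟩
        · exact Γ.loopless.irrefl v (by have := hW y hy; rwa [h4] at this)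
        · exact Γ.loopless.irrefl v (by have := hW z hz; rwa [h5] at this)
      have hr0 : (r : ℝ) ≠ 0 := (rpos (r := r)).ne'
      have hr1 : 1 ≤ r := Nat.one_le_iff_ne_zero.2 (NeZero.ne r)
      rw [if_pos he]
      simp only [h1, one_mul]
      rw [hB]
      simp only [if_pos he]
      rw [Finset.sum_ite, Finset.sum_const, Finset.sum_const, Finset.sum_const, Finset.card_univ, Fintype.card_fin,
        nsmul_eq_mul, nsmul_eq_mul, nsmul_eq_mul, mul_one, mul_one]
      have h3 : (Finset.univ.filter fun j : Fin r => j = 0).card = 1 := by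
        rw [Finset.filter_eq', if_pos (Finset.mem_univ _), Finset.card_singleton]
      have h4 : (Finset.univ.filter fun j : Fin r => ¬ j = 0).card = r - 1 := by
        have h5 := Finset.card_filter_add_card_filter_not (s := (Finset.univ : Finset (Fin r))) (fun j : Fin r => j = 0)
        rw [h3, Finset.card_univ, Fintype.card_fin] at h5
        omega
      rw [h3, h4, Nat.cast_one, one_mul, Nat.cast_sub hr1, Nat.cast_one]
      field_simp
      ring
    · rw [if_neg he, mul_one]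
      refine Finset.sum_congr rfl fun j _ => ?_
      rw [hB]
      simp only [if_neg he, mul_one]
  calc ∑ c : Sym2 V → Fin r, (if U Γ c v = W then Real.exp (lam * (cut Γ c R (W \ R) : ℝ)) else 0)
      = ∑ c : Sym2 V → Fin r, ∏ e, A e (c e) * B e (c e) := by
        refine Finset.sum_congr rfl fun c _ => ?_
        rw [Finset.prod_mul_distrib, hUA, hcB, ite_mul, one_mul, zero_mul]
    _ = ∏ e, ∑ j, A e j * B e j := sp fun e j => A e j * B e j
    _ = ∏ e, (∑ j, A e j) * (if e ∈ Bs Γ R W then 1 + (Real.exp lam - 1) / r else 1) :=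
        Finset.prod_congr rfl fun e _ => hAB e
    _ = (∏ e, ∑ j, A e j) * (1 + (Real.exp lam - 1) / r) ^ (Bs Γ R W).card := by
        rw [Finset.prod_mul_distrib, Finset.prod_ite_mem, Finset.univ_inter, Finset.prod_const]
    _ = _ := by
        rw [← sp, bs_card]
        exact congrArg (· * _) (Finset.sum_congr rfl fun c _ => hUA c)

private theorem key2 (v : V) {lam : ℝ} (hl : 0 < lam) (W : Finset V) :
    ∑ c : Sym2 V → Fin r, (if U Γ c v = W then Real.exp (lam * (MC Γ c v : ℝ)) else 0) ≤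
    (∑ c : Sym2 V → Fin r, if U Γ c v = W then (1 : ℝ) else 0) *
      (2 ^ W.card * Real.exp ((Real.exp lam - 1) / r * (MC0 Γ W : ℝ))) := by
  have hx0 : 0 ≤ (Real.exp lam - 1) / r :=
    div_nonneg (sub_nonneg.2 (Real.one_le_exp hl.le)) (rpos (r := r)).le
  by_cases hW : ∀ x ∈ W, Γ.Adj v x
  · have h1 : ∀ c : Sym2 V → Fin r, (if U Γ c v = W then Real.exp (lam * (MC Γ c v : ℝ)) else 0) ≤
        ∑ R ∈ W.powerset, (if U Γ c v = W then Real.exp (lam * (cut Γ c R (W \ R) : ℝ)) else 0) := by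
      intro c
      by_cases hc : U Γ c v = W
      · simp only [if_pos hc]
        obtain ⟨R, hR, hR'⟩ := Finset.exists_mem_eq_sup (U Γ c v).powerset
          ⟨∅, Finset.empty_mem_powerset _⟩ (fun R => cut Γ c R (U Γ c v \ R))
        have h2 : MC Γ c v = cut Γ c R (U Γ c v \ R) := hR'
        rw [h2, hc]
        rw [hc] at hR
        exact Finset.single_le_sum (f := fun R => Real.exp (lam * (cut Γ c R (W \ R) : ℝ)))
          (fun _ _ => (Real.exp_pos _).le) hR
      · simp only [if_neg hc, Finset.sum_const_zero, le_refl]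
    refine (Finset.sum_le_sum fun c _ => h1 c).trans ?_
    rw [Finset.sum_comm]
    have h3 : ∀ R ∈ W.powerset, ∑ c : Sym2 V → Fin r,
        (if U Γ c v = W then Real.exp (lam * (cut Γ c R (W \ R) : ℝ)) else 0) ≤
        (∑ c : Sym2 V → Fin r, if U Γ c v = W then (1 : ℝ) else 0) *
          Real.exp ((Real.exp lam - 1) / r * (MC0 Γ W : ℝ)) := by
      intro R hR
      rw [key1 Γ v lam hW (Finset.mem_powerset.1 hR)]
      refine mul_le_mul_of_nonneg_left ?_ (Finset.sum_nonneg fun c _ => by split_ifs <;> norm_num)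
      have h4 : cut0 Γ R (W \ R) ≤ MC0 Γ W := Finset.le_sup (f := fun R => cut0 Γ R (W \ R)) hR
      calc (1 + (Real.exp lam - 1) / r) ^ cut0 Γ R (W \ R)
          ≤ (1 + (Real.exp lam - 1) / r) ^ MC0 Γ W := pow_le_pow_right₀ (by linarith) h4
        _ ≤ (Real.exp ((Real.exp lam - 1) / r)) ^ MC0 Γ W :=
            pow_le_pow_left₀ (by linarith) (by rw [add_comm]; exact Real.add_one_le_exp _) _
        _ = _ := by rw [← Real.exp_nat_mul, mul_comm]
    refine (Finset.sum_le_sum h3).trans (le_of_eq ?_)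
    rw [Finset.sum_const, Finset.card_powerset, nsmul_eq_mul, Nat.cast_pow, Nat.cast_ofNat]
    ring
  · push Not at hW
    obtain ⟨x, hx, hx'⟩ := hW
    have h2 : ∀ c : Sym2 V → Fin r, ¬ U Γ c v = W := by
      intro c hc
      rw [← hc] at hx
      exact hx' (Finset.mem_filter.1 hx).2.1
    simp only [if_neg (h2 _), Finset.sum_const_zero, zero_mul, le_refl]

theorem lse (v : V) (lam : ℝ) (hl : 0 < lam) :
    ex (fun c : Sym2 V → Fin r => (MC Γ c v : ℝ)) ≤
      ex (fun c : Sym2 V → Fin r => (Real.exp lam - 1) / lam / r * (MC0 Γ (U Γ c v) : ℝ) +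
        Real.log 2 / lam * ((U Γ c v).card : ℝ)) := by
  obtain ⟨x, hx⟩ : ∃ x, x = (Real.exp lam - 1) / r := ⟨_, rfl⟩
  obtain ⟨X, hX⟩ : ∃ X : (Sym2 V → Fin r) → ℝ, X = fun c => lam * (MC Γ c v : ℝ) -
    (x * (MC0 Γ (U Γ c v) : ℝ) + Real.log 2 * ((U Γ c v).card : ℝ)) := ⟨_, rfl⟩
  have h1 : ∑ c, Real.exp (X c) ≤ ∑ c : Sym2 V → Fin r, (1 : ℝ) := by
    have h2 : ∀ c, Real.exp (X c) = ∑ W : Finset V, (if U Γ c v = W then
        Real.exp (lam * (MC Γ c v : ℝ)) else 0) * (2 ^ W.card * Real.exp (x * (MC0 Γ W : ℝ)))⁻¹ := by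
      intro c
      rw [Finset.sum_eq_single (U Γ c v)]
      · rw [if_pos rfl, hX]
        simp only
        rw [Real.exp_sub, Real.exp_add, mul_comm (Real.log 2), Real.exp_nat_mul, Real.exp_log two_pos, div_eq_mul_inv,
          mul_comm (Real.exp (x * _)) (2 ^ _)]
      · intro W _ hW
        rw [if_neg fun h => hW h.symm, zero_mul]
      · exact fun h => absurd (Finset.mem_univ _) h
    rw [Finset.sum_congr rfl fun c _ => h2 c, Finset.sum_comm]
    have h3 : ∀ W ∈ (Finset.univ : Finset (Finset V)), ∑ c : Sym2 V → Fin r, (if U Γ c v = W then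
        Real.exp (lam * (MC Γ c v : ℝ)) else 0) * (2 ^ W.card * Real.exp (x * (MC0 Γ W : ℝ)))⁻¹ ≤
        ∑ c : Sym2 V → Fin r, if U Γ c v = W then (1 : ℝ) else 0 := by
      intro W _
      rw [← Finset.sum_mul]
      have h4 : 0 < 2 ^ W.card * Real.exp (x * (MC0 Γ W : ℝ)) := by positivity
      rw [← div_eq_mul_inv, div_le_iff₀ h4, hx]
      exact key2 Γ v hl W
    refine (Finset.sum_le_sum h3).trans (le_of_eq ?_)
    rw [Finset.sum_comm]
    refine Finset.sum_congr rfl fun c _ => ?_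
    rw [Finset.sum_ite_eq, if_pos (Finset.mem_univ _)]
  have h2 : ∑ c, (X c + 1) ≤ ∑ c : Sym2 V → Fin r, (1 : ℝ) :=
    (Finset.sum_le_sum fun c _ => Real.add_one_le_exp (X c)).trans h1
  rw [Finset.sum_add_distrib] at h2
  have h3 : ∑ c, X c ≤ 0 := by linarith
  unfold ex
  refine div_le_div_of_nonneg_right ?_ (pow_nonneg (rpos (r := r)).le _)
  rw [← sub_nonpos, ← Finset.sum_sub_distrib]
  have h4 : ∑ c : Sym2 V → Fin r, ((MC Γ c v : ℝ) - ((Real.exp lam - 1) / lam / r * (MC0 Γ (U Γ c v) : ℝ) +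
      Real.log 2 / lam * ((U Γ c v).card : ℝ))) = (∑ c, X c) / lam := by
    rw [Finset.sum_div]
    refine Finset.sum_congr rfl fun c _ => ?_
    rw [hX, hx]
    simp only
    field_simp
  rw [h4]
  exact div_nonpos_of_nonpos_of_nonneg h3 hl.le

end Pool.Agent.H62.FK
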