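import Pool.Agent.H62.FK.Pr

/-!
# Edge Folkman graphs without `H₀` (MP_eb1b1c_co): first and second moment of the number of cliques

`v, x, y` a triangle of `Γ`, `κ` the number of extensions to a clique of six vertices.
`mom1`: the mean of `Nn` over the `c` with `x, y ∈ U v`. `mom2`: the mean of `(Nn / μ - 1)²`, `μ = κ / r³`.
Proof. For `x, y ∈ U c v`: `Nn Γ (U c v) x y = ∑_(z ∈ Ext v x y) [c s(v, z i) = 0 for all i]`. `ex_zero` with the sets `{s(v, x), s(v, y)} ∪ {s(v, w) : w ∈ Z ∪ Z'}`, `Z` the image of `z`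
(3 elements, not `x`, `y`), `s(v, ·)` injective: `E [xy] N² = ∑_(z, z') r^(-(8 - |Z ∩ Z'|))`, and `r^|Z ∩ Z'| ≤ ∑_(M ⊆ Z) r^|M| [M ⊆ Z']`; for `|M| = 0, 1, 2, 3` the number of `z'` with
`M ⊆ Z'` is at most `κ, κ₁, κ₂, 27`.
-/

set_option autoImplicit false

open scoped Classical

noncomputable section

namespace Pool.Agent.H62.FK

variable {V : Type} [Fintype V] (Γ : SimpleGraph V) {r : ℕ} [NeZero r]

/-- the vertices `x, y, z 0, z 1, z 2` -/
private def mW {V : Type} (x y : V) (z : Fin 3 → V) : Finset V :=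
  insert x (insert y (Finset.univ.image z))

private theorem mem_mW {V : Type} (x y : V) (z : Fin 3 → V) (w : V) :
    w ∈ mW x y z ↔ w = x ∨ w = y ∨ ∃ i, z i = w := by
  simp [mW]

private theorem exW (v : V) (W : Finset V) :
    ex (fun c : Sym2 V → Fin r => if ∀ w ∈ W, c s(v, w) = 0 then (1 : ℝ) else 0) =
      (1 / (r : ℝ)) ^ W.card := by
  have hinj : Function.Injective (fun w : V => s(v, w)) := by
    intro a b h
    exact Sym2.congr_right.1 h
  rw [← Finset.card_image_of_injective W hinj, ← ex_zero (r := r)]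
  congr 1
  funext c
  have h : (∀ e ∈ W.image (fun w : V => s(v, w)), c e = 0) ↔ ∀ w ∈ W, c s(v, w) = 0 := by
    constructor
    · intro h w hw
      exact h _ (Finset.mem_image_of_mem _ hw)
    · intro h e he
      obtain ⟨w, hw, rfl⟩ := Finset.mem_image.1 he
      exact h w hw
  simp only [h]

private theorem ext_props {v x y : V} {z : Fin 3 → V} (hz : z ∈ Ext Γ v x y) :
    Function.Injective z ∧ (∀ i, z i ≠ x) ∧ (∀ i, z i ≠ y) ∧ x ≠ y := by
  rw [Ext, Finset.mem_filter] at hz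
  obtain ⟨-, -, hxy, h1, h2, h3⟩ := hz
  refine ⟨?_, fun i h => ?_, fun i h => ?_, hxy.ne⟩
  · intro i j hij
    by_contra hne
    exact (h3 i j hne).ne hij
  · exact (h1 i).ne h.symm
  · exact (h2 i).ne h.symm

private theorem card_mW {v x y : V} {z : Fin 3 → V} (hz : z ∈ Ext Γ v x y) :
    (mW x y z).card = 5 := by
  obtain ⟨h1, h2, h3, h4⟩ := ext_props Γ hz
  have hy : y ∉ (Finset.univ : Finset (Fin 3)).image z := by
    intro h
    obtain ⟨i, -, hi⟩ := Finset.mem_image.1 h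
    exact h3 i hi
  have hx : x ∉ insert y ((Finset.univ : Finset (Fin 3)).image z) := by
    intro h
    rcases Finset.mem_insert.1 h with h | h
    · exact h4 h
    · obtain ⟨i, -, hi⟩ := Finset.mem_image.1 h
      exact h2 i hi
  rw [mW, Finset.card_insert_of_notMem hx, Finset.card_insert_of_notMem hy,
    Finset.card_image_of_injective _ h1, Finset.card_univ, Fintype.card_fin]

/-- `Nn` as a sum of indicators -/
private theorem nn_sum (v x y : V) (hx : Γ.Adj v x) (hy : Γ.Adj v y) (c : Sym2 V → Fin r) :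
    (if x ∈ U Γ c v ∧ y ∈ U Γ c v then (Nn Γ (U Γ c v) x y : ℝ) else 0) =
      ∑ z ∈ Ext Γ v x y, if ∀ w ∈ mW x y z, c s(v, w) = 0 then (1 : ℝ) else 0 := by
  have hU : ∀ w, w ∈ U Γ c v ↔ Γ.Adj v w ∧ c s(v, w) = 0 := by
    intro w
    simp [U, on]
  rw [← Finset.sum_filter, Finset.sum_const, nsmul_eq_mul, mul_one]
  split_ifs with h
  · rw [Nn]
    congr 2
    ext z
    simp only [Finset.mem_filter, Finset.mem_univ, true_and, Ext, mem_mW]
    constructor
    · rintro ⟨h1, h2⟩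
      refine ⟨⟨fun i => ((hU _).1 (h1 i)).1, h2⟩, ?_⟩
      rintro w (rfl | rfl | ⟨i, rfl⟩)
      · exact ((hU _).1 h.1).2
      · exact ((hU _).1 h.2).2
      · exact ((hU _).1 (h1 i)).2
    · rintro ⟨⟨h1, h2⟩, h3⟩
      exact ⟨fun i => (hU _).2 ⟨h1 i, h3 _ (Or.inr (Or.inr ⟨i, rfl⟩))⟩, h2⟩
  · symm
    rw [Nat.cast_eq_zero, Finset.card_eq_zero, Finset.filter_eq_empty_iff]
    intro z _ h3
    refine h ⟨(hU _).2 ⟨hx, h3 x ?_⟩, (hU _).2 ⟨hy, h3 y ?_⟩⟩
    · exact (mem_mW x y z x).2 (Or.inl rfl)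
    · exact (mem_mW x y z y).2 (Or.inr (Or.inl rfl))

theorem mom1 (v x y : V) (hx : Γ.Adj v x) (hy : Γ.Adj v y) (hxy : Γ.Adj x y) :
    ex (fun c : Sym2 V → Fin r => if x ∈ U Γ c v ∧ y ∈ U Γ c v then
      (Nn Γ (U Γ c v) x y : ℝ) else 0) = ((Ext Γ v x y).card : ℝ) / (r : ℝ) ^ 5 := by
  have h1 : (fun c : Sym2 V → Fin r => if x ∈ U Γ c v ∧ y ∈ U Γ c v then
      (Nn Γ (U Γ c v) x y : ℝ) else 0) = fun c : Sym2 V → Fin r =>
        ∑ z ∈ Ext Γ v x y, if ∀ w ∈ mW x y z, c s(v, w) = 0 then (1 : ℝ) else 0 :=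
    funext fun c => nn_sum Γ v x y hx hy c
  rw [h1, ex_sum]
  have h2 : ∀ z ∈ Ext Γ v x y,
      ex (fun c : Sym2 V → Fin r => if ∀ w ∈ mW x y z, c s(v, w) = 0 then (1 : ℝ) else 0) =
        (1 / (r : ℝ)) ^ 5 := fun z hz => by rw [exW, card_mW Γ hz]
  rw [Finset.sum_congr rfl h2, Finset.sum_const, nsmul_eq_mul, one_div, inv_pow,
    div_eq_mul_inv]

/-- the joint indicator -/
private theorem nn_sq (v x y : V) (hx : Γ.Adj v x) (hy : Γ.Adj v y) (c : Sym2 V → Fin r) :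
    (if x ∈ U Γ c v ∧ y ∈ U Γ c v then (Nn Γ (U Γ c v) x y : ℝ) ^ 2 else 0) =
      ∑ z ∈ Ext Γ v x y, ∑ z' ∈ Ext Γ v x y,
        if ∀ w ∈ mW x y z ∪ mW x y z', c s(v, w) = 0 then (1 : ℝ) else 0 := by
  have h1 : (if x ∈ U Γ c v ∧ y ∈ U Γ c v then (Nn Γ (U Γ c v) x y : ℝ) ^ 2 else 0) =
      (if x ∈ U Γ c v ∧ y ∈ U Γ c v then (Nn Γ (U Γ c v) x y : ℝ) else 0) *
        (if x ∈ U Γ c v ∧ y ∈ U Γ c v then (Nn Γ (U Γ c v) x y : ℝ) else 0) := by
    split_ifs
    · ring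
    · ring
  rw [h1, nn_sum Γ v x y hx hy c, Finset.sum_mul_sum]
  refine Finset.sum_congr rfl fun z _ => Finset.sum_congr rfl fun z' _ => ?_
  by_cases h2 : ∀ w ∈ mW x y z, c s(v, w) = 0
  · by_cases h3 : ∀ w ∈ mW x y z', c s(v, w) = 0
    · rw [if_pos h2, if_pos h3, if_pos, mul_one]
      intro w hw
      rcases Finset.mem_union.1 hw with h | h
      · exact h2 w h
      · exact h3 w h
    · rw [if_neg h3, mul_zero, if_neg]
      exact fun h => h3 fun w hw => h w (Finset.mem_union_right _ hw)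
  · rw [if_neg h2, zero_mul, if_neg]
    exact fun h => h2 fun w hw => h w (Finset.mem_union_left _ hw)

/-- `w` is a value of `z'` -/
private def Hit {V : Type} (z' : Fin 3 → V) (w : V) : Prop := ∃ j, z' j = w

/-- the probability of the joint indicator -/
private theorem joint_le {v x y : V} {z z' : Fin 3 → V} (hz : z ∈ Ext Γ v x y)
    (hz' : z' ∈ Ext Γ v x y) :
    (1 / (r : ℝ)) ^ (mW x y z ∪ mW x y z').card ≤ (1 / (r : ℝ)) ^ 8 *
      ∏ i : Fin 3, (1 + if Hit z' (z i) then (r : ℝ) else 0) := by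
  obtain ⟨h1, h2, h3, h4⟩ := ext_props Γ hz
  have hr : (0 : ℝ) < r := rpos (r := r)
  have hset : mW x y z ∪ mW x y z' = mW x y z' ∪
      ((Finset.univ : Finset (Fin 3)).filter fun i => ¬ Hit z' (z i)).image z := by
    ext w
    simp only [Finset.mem_union, mem_mW, Finset.mem_image, Finset.mem_filter, Finset.mem_univ,
      true_and]
    constructor
    · rintro ((h | h | ⟨i, rfl⟩) | h)
      · exact Or.inl (Or.inl h)
      · exact Or.inl (Or.inr (Or.inl h))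
      · by_cases h5 : Hit z' (z i)
        · exact Or.inl (Or.inr (Or.inr h5))
        · exact Or.inr ⟨i, h5, rfl⟩
      · exact Or.inl h
    · rintro (h | ⟨i, -, rfl⟩)
      · exact Or.inr h
      · exact Or.inl (Or.inr (Or.inr ⟨i, rfl⟩))
  have hdis : Disjoint (mW x y z')
      (((Finset.univ : Finset (Fin 3)).filter fun i => ¬ Hit z' (z i)).image z) := by
    rw [Finset.disjoint_left]
    intro w hw hw'
    obtain ⟨i, hi, rfl⟩ := Finset.mem_image.1 hw'
    rw [Finset.mem_filter] at hi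
    rcases (mem_mW x y z' _).1 hw with h | h | h
    · exact h2 i h
    · exact h3 i h
    · exact hi.2 h
  have hcard : (mW x y z ∪ mW x y z').card =
      5 + ((Finset.univ : Finset (Fin 3)).filter fun i => ¬ Hit z' (z i)).card := by
    rw [hset, Finset.card_union_of_disjoint hdis, card_mW Γ hz',
      Finset.card_image_of_injective _ h1]
  have hprod : (1 / (r : ℝ)) ^
      ((Finset.univ : Finset (Fin 3)).filter fun i => ¬ Hit z' (z i)).card =
        ∏ i : Fin 3, if Hit z' (z i) then (1 : ℝ) else 1 / (r : ℝ) := by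
    rw [← Finset.prod_const, Finset.prod_filter]
    refine Finset.prod_congr rfl fun i _ => ?_
    by_cases h5 : Hit z' (z i)
    · rw [if_pos h5, if_neg (not_not.2 h5)]
    · rw [if_neg h5, if_pos h5]
  rw [hcard, pow_add, hprod]
  have h8 : (1 / (r : ℝ)) ^ 8 * ∏ i : Fin 3, (1 + if Hit z' (z i) then (r : ℝ) else 0) =
      (1 / (r : ℝ)) ^ 5 * ∏ i : Fin 3, ((1 / (r : ℝ)) *
        (1 + if Hit z' (z i) then (r : ℝ) else 0)) := by
    rw [Finset.prod_mul_distrib, Finset.prod_const, Finset.card_univ, Fintype.card_fin,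
      ← mul_assoc, ← pow_add]
  rw [h8]
  refine mul_le_mul_of_nonneg_left ?_ (by positivity)
  refine Finset.prod_le_prod (fun i _ => ?_) fun i _ => ?_
  · split_ifs
    · exact zero_le_one
    · positivity
  · split_ifs
    · rw [mul_add, one_div, inv_mul_cancel₀ hr.ne', mul_one]
      have : (0 : ℝ) ≤ (r : ℝ)⁻¹ := by positivity
      linarith
    · rw [add_zero, mul_one]

/-- at most `27` extensions `z'` have all the values of `z` -/
private theorem card_all (z : Fin 3 → V) (hz : Function.Injective z) (S : Finset (Fin 3 → V)) :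
    (S.filter fun z' => ∀ i, ∃ j, z' j = z i).card ≤ 27 := by
  have h1 : ∀ z' ∈ S.filter (fun z' => ∀ i, ∃ j, z' j = z i), ∃ σ : Fin 3 → Fin 3,
      ∀ i, z' (σ i) = z i := by
    intro z' hz'
    exact ⟨fun i => ((Finset.mem_filter.1 hz').2 i).choose,
      fun i => ((Finset.mem_filter.1 hz').2 i).choose_spec⟩
  choose! σ hσ using h1
  have h2 : (S.filter fun z' => ∀ i, ∃ j, z' j = z i).card ≤
      (Finset.univ : Finset (Fin 3 → Fin 3)).card := by
    refine Finset.card_le_card_of_injOn σ (fun _ _ => Finset.mem_univ _) ?_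
    intro a ha b hb hab
    have h3 : Function.Injective (σ a) := by
      intro i j hij
      have h4 : z i = z j := by rw [← hσ a ha i, ← hσ a ha j, hij]
      exact hz h4
    have h5 : Function.Surjective (σ a) := Finite.injective_iff_surjective.1 h3
    funext k
    obtain ⟨i, rfl⟩ := h5 k
    rw [hσ a ha i, hab, hσ b hb i]
  simpa using h2

private theorem prod_three (a : ℝ) (p : Fin 3 → Prop) :
    ∏ i : Fin 3, (1 + if p i then a else 0) =
      1 + a * ((if p 0 then 1 else 0) + (if p 1 then 1 else 0) + (if p 2 then 1 else 0)) +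
        a ^ 2 * ((if p 0 ∧ p 1 then 1 else 0) + (if p 0 ∧ p 2 then 1 else 0) +
          (if p 1 ∧ p 2 then 1 else 0)) + a ^ 3 * (if ∀ i, p i then 1 else 0) := by
  have h : (∀ i, p i) ↔ p 0 ∧ p 1 ∧ p 2 := by
    constructor
    · intro h
      exact ⟨h 0, h 1, h 2⟩
    · rintro ⟨h0, h1, h2⟩ i
      fin_cases i
      · exact h0
      · exact h1
      · exact h2
  simp only [h]
  rw [Fin.prod_univ_three]
  by_cases h0 : p 0 <;> by_cases h1 : p 1 <;> by_cases h2 : p 2 <;> simp [h0, h1, h2] <;> ring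

/-- the sum over `z'` of the joint bound -/
private theorem inner_le {v x y : V} (κ₁ κ₂ : ℕ) {z : Fin 3 → V} (hz : z ∈ Ext Γ v x y)
    (h1 : ∀ w, ((Ext Γ v x y).filter fun z => ∃ i, z i = w).card ≤ κ₁)
    (h2 : ∀ w w', w ≠ w' →
      ((Ext Γ v x y).filter fun z => (∃ i, z i = w) ∧ ∃ i, z i = w').card ≤ κ₂) :
    ∑ z' ∈ Ext Γ v x y, ∏ i : Fin 3, (1 + if Hit z' (z i) then (r : ℝ) else 0) ≤
      ((Ext Γ v x y).card : ℝ) + (3 * r * κ₁ + 3 * (r : ℝ) ^ 2 * κ₂ + 27 * (r : ℝ) ^ 3) := by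
  obtain ⟨hinj, -, -, -⟩ := ext_props Γ hz
  have hr : (0 : ℝ) < r := rpos (r := r)
  have e1 : ∀ w, ∑ z' ∈ Ext Γ v x y, (if Hit z' w then (1 : ℝ) else 0) ≤ κ₁ := by
    intro w
    rw [Finset.sum_boole]
    refine Nat.cast_le.2 (le_trans (Finset.card_le_card ?_) (h1 w))
    intro z' hz'
    rw [Finset.mem_filter] at hz' ⊢
    exact hz'
  have e2 : ∀ w w', w ≠ w' → ∑ z' ∈ Ext Γ v x y,
      (if Hit z' w ∧ Hit z' w' then (1 : ℝ) else 0) ≤ κ₂ := by
    intro w w' hw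
    rw [Finset.sum_boole]
    refine Nat.cast_le.2 (le_trans (Finset.card_le_card ?_) (h2 w w' hw))
    intro z' hz'
    rw [Finset.mem_filter] at hz' ⊢
    exact hz'
  have e3 : ∑ z' ∈ Ext Γ v x y, (if ∀ i, Hit z' (z i) then (1 : ℝ) else 0) ≤ 27 := by
    rw [Finset.sum_boole]
    have h3 := card_all z hinj (Ext Γ v x y)
    refine le_trans (Nat.cast_le.2 (le_trans (Finset.card_le_card ?_) h3)) (by norm_num)
    intro z' hz'
    rw [Finset.mem_filter] at hz' ⊢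
    exact hz'
  have hp : ∀ z' ∈ Ext Γ v x y,
      ∏ i : Fin 3, (1 + if Hit z' (z i) then (r : ℝ) else 0) =
        1 + (r : ℝ) * ((if Hit z' (z 0) then 1 else 0) + (if Hit z' (z 1) then 1 else 0) +
          (if Hit z' (z 2) then 1 else 0)) +
        (r : ℝ) ^ 2 * ((if Hit z' (z 0) ∧ Hit z' (z 1) then 1 else 0) +
          (if Hit z' (z 0) ∧ Hit z' (z 2) then 1 else 0) +
          (if Hit z' (z 1) ∧ Hit z' (z 2) then 1 else 0)) +
        (r : ℝ) ^ 3 * (if ∀ i, Hit z' (z i) then 1 else 0) := fun z' _ =>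
    prod_three (r : ℝ) (fun i => Hit z' (z i))
  rw [Finset.sum_congr rfl hp, Finset.sum_add_distrib, Finset.sum_add_distrib,
    Finset.sum_add_distrib, ← Finset.mul_sum, ← Finset.mul_sum, ← Finset.mul_sum,
    Finset.sum_add_distrib, Finset.sum_add_distrib, Finset.sum_add_distrib,
    Finset.sum_add_distrib, Finset.sum_const, nsmul_eq_mul, mul_one]
  have n01 : z 0 ≠ z 1 := fun h => by simpa using hinj h
  have n02 : z 0 ≠ z 2 := fun h => by simpa using hinj h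
  have n12 : z 1 ≠ z 2 := fun h => by simpa using hinj h
  have f1 := mul_le_mul_of_nonneg_left (add_le_add (add_le_add (e1 (z 0)) (e1 (z 1))) (e1 (z 2)))
    hr.le
  have f2 := mul_le_mul_of_nonneg_left (add_le_add (add_le_add (e2 (z 0) (z 1) n01)
    (e2 (z 0) (z 2) n02)) (e2 (z 1) (z 2) n12)) (pow_nonneg hr.le 2)
  have f3 := mul_le_mul_of_nonneg_left e3 (pow_nonneg hr.le 3)
  calc _ ≤ ((Ext Γ v x y).card : ℝ) + (r : ℝ) * (κ₁ + κ₁ + κ₁) + (r : ℝ) ^ 2 * (κ₂ + κ₂ + κ₂) +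
        (r : ℝ) ^ 3 * 27 := add_le_add (add_le_add (add_le_add le_rfl f1) f2) f3
    _ = _ := by ring

theorem mom2 (v x y : V) (hx : Γ.Adj v x) (hy : Γ.Adj v y) (hxy : Γ.Adj x y) (κ₁ κ₂ : ℕ)
    (h0 : (Ext Γ v x y).Nonempty)
    (h1 : ∀ w, ((Ext Γ v x y).filter fun z => ∃ i, z i = w).card ≤ κ₁)
    (h2 : ∀ w w', w ≠ w' →
      ((Ext Γ v x y).filter fun z => (∃ i, z i = w) ∧ ∃ i, z i = w').card ≤ κ₂) :
    ex (fun c : Sym2 V → Fin r => if x ∈ U Γ c v ∧ y ∈ U Γ c v then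
      ((Nn Γ (U Γ c v) x y : ℝ) / (((Ext Γ v x y).card : ℝ) / (r : ℝ) ^ 3) - 1) ^ 2 else 0) ≤
        (1 / (r : ℝ) ^ 2) * ((3 * r * κ₁ + 3 * (r : ℝ) ^ 2 * κ₂ + 27 * (r : ℝ) ^ 3) /
          ((Ext Γ v x y).card : ℝ)) := by
  have hr : (0 : ℝ) < r := rpos (r := r)
  have hκ : (0 : ℝ) < ((Ext Γ v x y).card : ℝ) := by exact_mod_cast h0.card_pos
  set κ : ℝ := ((Ext Γ v x y).card : ℝ) with hκd
  set μ : ℝ := κ / (r : ℝ) ^ 3 with hμd
  have hμ : 0 < μ := by positivity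
  have hexp : (fun c : Sym2 V → Fin r => if x ∈ U Γ c v ∧ y ∈ U Γ c v then
      ((Nn Γ (U Γ c v) x y : ℝ) / μ - 1) ^ 2 else 0) = fun c : Sym2 V → Fin r =>
        ((1 / μ ^ 2) * (if x ∈ U Γ c v ∧ y ∈ U Γ c v then (Nn Γ (U Γ c v) x y : ℝ) ^ 2 else 0) -
          (2 / μ) * (if x ∈ U Γ c v ∧ y ∈ U Γ c v then (Nn Γ (U Γ c v) x y : ℝ) else 0)) +
            (if ∀ w ∈ ({x, y} : Finset V), c s(v, w) = 0 then (1 : ℝ) else 0) := by
    funext c
    have h3 : (x ∈ U Γ c v ∧ y ∈ U Γ c v) ↔ ∀ w ∈ ({x, y} : Finset V), c s(v, w) = 0 := by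
      simp [U, on, hx, hy]
    by_cases h4 : x ∈ U Γ c v ∧ y ∈ U Γ c v
    · rw [if_pos h4, if_pos h4, if_pos h4, if_pos (h3.1 h4)]
      field_simp
      ring
    · rw [if_neg h4, if_neg h4, if_neg h4, if_neg (fun h => h4 (h3.2 h))]
      ring
  rw [hexp, ex_add, ex_sub, ex_mul, ex_mul, mom1 Γ v x y hx hy hxy, exW]
  have hxyc : ({x, y} : Finset V).card = 2 := Finset.card_pair hxy.ne
  rw [hxyc]
  have hsq : (fun c : Sym2 V → Fin r => if x ∈ U Γ c v ∧ y ∈ U Γ c v then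
      (Nn Γ (U Γ c v) x y : ℝ) ^ 2 else 0) = fun c : Sym2 V → Fin r =>
        ∑ z ∈ Ext Γ v x y, ∑ z' ∈ Ext Γ v x y,
          if ∀ w ∈ mW x y z ∪ mW x y z', c s(v, w) = 0 then (1 : ℝ) else 0 :=
    funext fun c => nn_sq Γ v x y hx hy c
  have hE : ex (fun c : Sym2 V → Fin r => if x ∈ U Γ c v ∧ y ∈ U Γ c v then
      (Nn Γ (U Γ c v) x y : ℝ) ^ 2 else 0) ≤
        κ * ((1 / (r : ℝ)) ^ 8 * (κ + (3 * r * κ₁ + 3 * (r : ℝ) ^ 2 * κ₂ + 27 * (r : ℝ) ^ 3))) := by
    rw [hsq, ex_sum]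
    calc ∑ z ∈ Ext Γ v x y, ex (fun c : Sym2 V → Fin r => ∑ z' ∈ Ext Γ v x y,
            if ∀ w ∈ mW x y z ∪ mW x y z', c s(v, w) = 0 then (1 : ℝ) else 0)
        ≤ ∑ z ∈ Ext Γ v x y, (1 / (r : ℝ)) ^ 8 *
            (κ + (3 * r * κ₁ + 3 * (r : ℝ) ^ 2 * κ₂ + 27 * (r : ℝ) ^ 3)) := by
          refine Finset.sum_le_sum fun z hz => ?_
          rw [ex_sum]
          calc ∑ z' ∈ Ext Γ v x y, ex (fun c : Sym2 V → Fin r =>
                if ∀ w ∈ mW x y z ∪ mW x y z', c s(v, w) = 0 then (1 : ℝ) else 0)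
              ≤ ∑ z' ∈ Ext Γ v x y, (1 / (r : ℝ)) ^ 8 *
                  ∏ i : Fin 3, (1 + if Hit z' (z i) then (r : ℝ) else 0) := by
                refine Finset.sum_le_sum fun z' hz' => ?_
                rw [exW]
                exact joint_le Γ hz hz'
            _ = (1 / (r : ℝ)) ^ 8 * ∑ z' ∈ Ext Γ v x y,
                  ∏ i : Fin 3, (1 + if Hit z' (z i) then (r : ℝ) else 0) := by
                rw [Finset.mul_sum]
            _ ≤ _ := mul_le_mul_of_nonneg_left (inner_le Γ κ₁ κ₂ hz h1 h2) (by positivity)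
      _ = _ := by rw [Finset.sum_const, nsmul_eq_mul]
  set Q : ℝ := 3 * r * κ₁ + 3 * (r : ℝ) ^ 2 * κ₂ + 27 * (r : ℝ) ^ 3 with hQ
  have hfin : (1 / μ ^ 2) * (κ * ((1 / (r : ℝ)) ^ 8 * (κ + Q))) - 2 / μ * (κ / (r : ℝ) ^ 5) +
      (1 / (r : ℝ)) ^ 2 = 1 / (r : ℝ) ^ 2 * (Q / κ) := by
    rw [hμd]
    field_simp
    ring
  rw [← hfin]
  have h5 := mul_le_mul_of_nonneg_left hE (show (0 : ℝ) ≤ 1 / μ ^ 2 by positivity)
  linarith

end Pool.Agent.H62.FK
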