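import Pool.Agent.H62.FK.Pr

/-!
# Edge Folkman graphs without `H₀` (MP_eb1b1c_co): removing the copies of `H₀`

`tri_ge`: the ordered triangles which are lost. `gr_free`: there is no `H₀` left. `bad_ex`: the mean of `Bad`.
Proof of `bad_ex`. `Bad c ≤ ∑_(p copy of H₀ in Γ) ∑_((i, j) ∈ HE) ∑_z [all 7 edges of p on] [p i z, p j z on]`; `z` not in the image of `p`: 9 different edges, `D` values of `z` at most;
`z` in the image of `p`, `z ≠ p i, p j`: 3 values, 7 edges. The number of copies `p` in `Γ` is at most `Ed * s` (the ordered edge `p 2, p 4`, and `(p 0, p 1, p 3)`).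
-/

set_option autoImplicit false

open scoped Classical

noncomputable section

namespace Pool.Agent.H62.FK

variable {V : Type} [Fintype V] (Γ : SimpleGraph V) {r : ℕ} [NeZero r]

omit [Fintype V] in
private theorem rm_symm {c : Sym2 V → Fin r} {x y : V} (h : on Γ c x y) : on Γ c y x :=
  ⟨h.1.symm, by rw [Sym2.eq_swap]; exact h.2⟩

omit [Fintype V] in
private theorem rm_inH_symm {c : Sym2 V → Fin r} {x y : V} (h : inH Γ c x y) : inH Γ c y x := by
  obtain ⟨p, hp, w, hw, h1, h2⟩ := h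
  refine ⟨p, hp, (w.2, w.1), ?_, h2, h1⟩
  revert hw
  revert w
  intro w _ _ hw
  have hall : ∀ w ∈ HE, (w.2, w.1) ∈ HE := by decide
  exact hall w hw

/-- the edges of `H₀` -/
private def E7 : Finset (Sym2 (Fin 5)) := {s(0, 2), s(0, 3), s(0, 4), s(1, 2), s(1, 3), s(1, 4), s(2, 4)}

private theorem E7_card : E7.card = 7 := by decide

private theorem E7_HE : ∀ w ∈ HE, s(w.1, w.2) ∈ E7 := by decide

private theorem HE_E7 : ∀ e ∈ E7, ∃ w ∈ HE, s(w.1, w.2) = e := by decide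

private theorem HE_ne : ∀ w ∈ HE, w.1 ≠ w.2 := by decide

private theorem HE_card : HE.card = 14 := by decide

/-- the edges of a copy -/
private def SP (p : Fin 5 → V) : Finset (Sym2 V) := E7.image (Sym2.map p)

omit [Fintype V] in
private theorem SP_card {p : Fin 5 → V} (hp : Function.Injective p) : (SP p).card = 7 := by
  unfold SP
  rw [Finset.card_image_of_injective _ (Sym2.map.injective hp), E7_card]

omit [Fintype V] in
private theorem H0_on {c : Sym2 V → Fin r} {p : Fin 5 → V} (h : H0 (on Γ c) p) : ∀ e ∈ SP p, c e = 0 := by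
  intro e he
  unfold SP at he
  obtain ⟨e', he', rfl⟩ := Finset.mem_image.mp he
  obtain ⟨w, hw, rfl⟩ := HE_E7 e' he'
  exact (h.2 w hw).2

omit [Fintype V] in
private theorem H0_adj {c : Sym2 V → Fin r} {p : Fin 5 → V} (h : H0 (on Γ c) p) : H0 Γ.Adj p :=
  ⟨h.1, fun w hw => (h.2 w hw).1⟩

/-- the copies of `H₀` in `Γ` -/
private def PC : Finset (Fin 5 → V) := Finset.univ.filter fun p => H0 Γ.Adj p

private theorem PC_card {D κ κ₁ κ₂ s : ℕ} (h : Host Γ D κ κ₁ κ₂ s) : (PC Γ).card ≤ s * Ed Γ := by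
  have h1 : (PC Γ).card ≤ s * ((PC Γ).image fun p => (p 2, p 4)).card := by
    refine Finset.card_le_mul_card_image (PC Γ) s fun a ha => ?_
    obtain ⟨p0, hp0, rfl⟩ := Finset.mem_image.mp ha
    have hp0' : H0 Γ.Adj p0 := (Finset.mem_filter.mp hp0).2
    have hadj : Γ.Adj (p0 2) (p0 4) := hp0'.2 (2, 4) (by decide)
    refine le_trans ?_ (h.h0 (p0 2) (p0 4) hadj)
    refine Finset.card_le_card_of_injOn (fun p => (p 0, p 1, p 3)) ?_ ?_
    · intro p hp
      obtain ⟨hp1, hp2⟩ := Finset.mem_filter.mp hp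
      have hp' : H0 Γ.Adj p := (Finset.mem_filter.mp hp1).2
      have e2 : p 2 = p0 2 := congrArg Prod.fst hp2
      have e4 : p 4 = p0 4 := congrArg Prod.snd hp2
      refine Finset.mem_filter.mpr ⟨Finset.mem_univ _, ?_⟩
      simp only
      rw [← e2, ← e4]
      exact ⟨hp'.2 (0, 2) (by decide), hp'.2 (0, 4) (by decide), hp'.2 (1, 2) (by decide), hp'.2 (1, 4) (by decide),
        hp'.2 (3, 0) (by decide), hp'.2 (3, 1) (by decide)⟩
    · intro p hp p' hp' he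
      obtain ⟨_, hp2⟩ := Finset.mem_filter.mp hp
      obtain ⟨_, hp2'⟩ := Finset.mem_filter.mp hp'
      have e2 : p 2 = p' 2 := (congrArg Prod.fst hp2).trans (congrArg Prod.fst hp2').symm
      have e4 : p 4 = p' 4 := (congrArg Prod.snd hp2).trans (congrArg Prod.snd hp2').symm
      have e0 : p 0 = p' 0 := congrArg (fun w : V × V × V => w.1) he
      have e1 : p 1 = p' 1 := congrArg (fun w : V × V × V => w.2.1) he
      have e3 : p 3 = p' 3 := congrArg (fun w : V × V × V => w.2.2) he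
      funext i
      fin_cases i
      · exact e0
      · exact e1
      · exact e2
      · exact e3
      · exact e4
  refine h1.trans (Nat.mul_le_mul_left _ (Finset.card_le_card ?_))
  intro a ha
  obtain ⟨p0, hp0, rfl⟩ := Finset.mem_image.mp ha
  exact Finset.mem_filter.mpr ⟨Finset.mem_univ _, ((Finset.mem_filter.mp hp0).2).2 (2, 4) (by decide)⟩

/-- the event for a copy, an edge of it and a vertex -/
private def Ev (c : Sym2 V → Fin r) (t : (Fin 5 → V) × (Fin 5 × Fin 5) × V) : Prop :=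
  H0 (on Γ c) t.1 ∧ on Γ c (t.1 t.2.1.1) t.2.2 ∧ on Γ c (t.1 t.2.1.2) t.2.2

private theorem bad_le (c : Sym2 V → Fin r) :
    (Bad Γ c : ℝ) ≤ ∑ p ∈ PC Γ, ∑ w ∈ HE, ∑ z : V, (if Ev Γ c (p, w, z) then (1 : ℝ) else 0) := by
  have h1 : Bad Γ c ≤ ((PC Γ ×ˢ HE ×ˢ (Finset.univ : Finset V)).filter fun t => Ev Γ c t).card := by
    unfold Bad
    refine le_trans (Finset.card_le_card ?_) (Finset.card_image_le (f := fun t : (Fin 5 → V) × (Fin 5 × Fin 5) × V =>
      (t.1 t.2.1.1, t.1 t.2.1.2, t.2.2)))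
    intro t ht
    obtain ⟨_, h1, h2, h3, h4⟩ := Finset.mem_filter.mp ht
    obtain ⟨p, hp, w, hw, e1, e2⟩ := h4
    refine Finset.mem_image.mpr ⟨(p, w, t.2.2), Finset.mem_filter.mpr ⟨?_, ?_⟩, ?_⟩
    · exact Finset.mem_product.mpr ⟨Finset.mem_filter.mpr ⟨Finset.mem_univ _, H0_adj Γ hp⟩,
        Finset.mem_product.mpr ⟨hw, Finset.mem_univ _⟩⟩
    · refine ⟨hp, ?_, ?_⟩
      · simp only
        rw [e1]
        exact h3
      · simp only
        rw [e2]
        exact h2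
    · simp only
      rw [e1, e2]
  have h2 : (((PC Γ ×ˢ HE ×ˢ (Finset.univ : Finset V)).filter fun t => Ev Γ c t).card : ℝ) =
      ∑ p ∈ PC Γ, ∑ w ∈ HE, ∑ z : V, (if Ev Γ c (p, w, z) then (1 : ℝ) else 0) := by
    rw [Finset.card_filter, Finset.sum_product]
    push_cast
    refine Finset.sum_congr rfl fun p _ => ?_
    rw [Finset.sum_product]
  rw [← h2]
  exact_mod_cast h1

private theorem ev_ex {p : Fin 5 → V} (hp : H0 Γ.Adj p) {w : Fin 5 × Fin 5} (hw : w ∈ HE) (z : V) :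
    ex (fun c : Sym2 V → Fin r => if Ev Γ c (p, w, z) then (1 : ℝ) else 0) ≤
      (if (Γ.Adj (p w.1) z ∧ Γ.Adj (p w.2) z) ∧ z ∈ Set.range p then (1 / (r : ℝ)) ^ 7 else 0) +
      (if Γ.Adj (p w.1) z ∧ Γ.Adj (p w.2) z then (1 / (r : ℝ)) ^ 9 else 0) := by
  have hr : (0 : ℝ) ≤ 1 / r := by positivity
  by_cases hA : Γ.Adj (p w.1) z ∧ Γ.Adj (p w.2) z
  · by_cases hz : z ∈ Set.range p
    · rw [if_pos ⟨hA, hz⟩, if_pos hA]
      refine le_trans (ex_mono (g := fun c : Sym2 V → Fin r => if ∀ e ∈ SP p, c e = 0 then (1 : ℝ) else 0) fun c => ?_) ?_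
      · split_ifs with h1 h2 h2
        · exact le_rfl
        · exact absurd (H0_on Γ h1.1) h2
        · exact zero_le_one
        · exact le_rfl
      · rw [ex_zero, SP_card hp.1]
        exact le_add_of_nonneg_right (pow_nonneg hr _)
    · rw [if_neg (fun h => hz h.2), if_pos hA, zero_add]
      have hz' : ∀ x : V, s(x, z) ∉ SP p := by
        intro x hx
        unfold SP at hx
        obtain ⟨e, _, he⟩ := Finset.mem_image.mp hx
        have h1 : z ∈ Sym2.map p e := by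
          rw [he]
          exact Sym2.mem_mk_right x z
        obtain ⟨i, _, hi⟩ := Sym2.mem_map.mp h1
        exact hz ⟨i, hi⟩
      have hne : s(p w.1, z) ≠ s(p w.2, z) := by
        intro he
        have h1 : p w.1 = p w.2 := by
          rcases Sym2.eq_iff.mp he with h2 | h2
          · exact h2.1
          · exact h2.1.trans h2.2
        exact HE_ne w hw (hp.1 h1)
      have hcard : (insert s(p w.1, z) (insert s(p w.2, z) (SP p))).card = 9 := by
        rw [Finset.card_insert_of_notMem, Finset.card_insert_of_notMem (hz' _), SP_card hp.1]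
        rw [Finset.mem_insert, not_or]
        exact ⟨hne, hz' _⟩
      refine le_trans (ex_mono (g := fun c : Sym2 V → Fin r =>
        if ∀ e ∈ insert s(p w.1, z) (insert s(p w.2, z) (SP p)), c e = 0 then (1 : ℝ) else 0) fun c => ?_) ?_
      · split_ifs with h1 h2 h2
        · exact le_rfl
        · refine absurd (fun e he => ?_) h2
          rcases Finset.mem_insert.mp he with rfl | he
          · exact h1.2.1.2
          rcases Finset.mem_insert.mp he with rfl | he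
          · exact h1.2.2.2
          · exact H0_on Γ h1.1 e he
        · exact zero_le_one
        · exact le_rfl
      · rw [ex_zero, hcard]
  · rw [if_neg (fun h => hA h.1), if_neg hA, add_zero]
    have h0 : (fun c : Sym2 V → Fin r => if Ev Γ c (p, w, z) then (1 : ℝ) else 0) = fun _ => 0 := by
      funext c
      exact if_neg fun h => hA ⟨h.2.1.1, h.2.2.1⟩
    rw [h0, ex_one]

theorem tri_ge (c : Sym2 V → Fin r) : Tri (on Γ c) ≤ Tri (Gr Γ c) + 3 * Bad Γ c := by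
  have hB2 : (Finset.univ.filter fun w : V × V × V => (on Γ c w.1 w.2.1 ∧ on Γ c w.2.1 w.2.2 ∧
      on Γ c w.1 w.2.2) ∧ inH Γ c w.2.1 w.2.2).card ≤ Bad Γ c := by
    refine Finset.card_le_card_of_injOn (fun w => (w.2.1, w.2.2, w.1)) ?_ ?_
    · intro w hw
      obtain ⟨_, ⟨h1, h2, h3⟩, h4⟩ := Finset.mem_filter.mp hw
      exact Finset.mem_filter.mpr ⟨Finset.mem_univ _, h2, rm_symm Γ h3, rm_symm Γ h1, h4⟩
    · intro w _ w' _ he
      obtain ⟨a, b, d⟩ := w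
      obtain ⟨a', b', d'⟩ := w'
      simp only [Prod.mk.injEq] at he ⊢
      exact ⟨he.2.2, he.1, he.2.1⟩
  have hB3 : (Finset.univ.filter fun w : V × V × V => (on Γ c w.1 w.2.1 ∧ on Γ c w.2.1 w.2.2 ∧
      on Γ c w.1 w.2.2) ∧ inH Γ c w.1 w.2.2).card ≤ Bad Γ c := by
    refine Finset.card_le_card_of_injOn (fun w => (w.1, w.2.2, w.2.1)) ?_ ?_
    · intro w hw
      obtain ⟨_, ⟨h1, h2, h3⟩, h4⟩ := Finset.mem_filter.mp hw
      exact Finset.mem_filter.mpr ⟨Finset.mem_univ _, h3, rm_symm Γ h2, h1, h4⟩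
    · intro w _ w' _ he
      obtain ⟨a, b, d⟩ := w
      obtain ⟨a', b', d'⟩ := w'
      simp only [Prod.mk.injEq] at he ⊢
      exact ⟨he.1, he.2.2, he.2.1⟩
  have hsub : (Finset.univ.filter fun w : V × V × V => on Γ c w.1 w.2.1 ∧ on Γ c w.2.1 w.2.2 ∧ on Γ c w.1 w.2.2) ⊆
      (Finset.univ.filter fun w : V × V × V => Gr Γ c w.1 w.2.1 ∧ Gr Γ c w.2.1 w.2.2 ∧ Gr Γ c w.1 w.2.2) ∪
      ((Finset.univ.filter fun w : V × V × V => on Γ c w.1 w.2.1 ∧ on Γ c w.2.1 w.2.2 ∧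
        on Γ c w.1 w.2.2 ∧ inH Γ c w.1 w.2.1) ∪
      ((Finset.univ.filter fun w : V × V × V => (on Γ c w.1 w.2.1 ∧ on Γ c w.2.1 w.2.2 ∧
        on Γ c w.1 w.2.2) ∧ inH Γ c w.2.1 w.2.2) ∪
      (Finset.univ.filter fun w : V × V × V => (on Γ c w.1 w.2.1 ∧ on Γ c w.2.1 w.2.2 ∧
        on Γ c w.1 w.2.2) ∧ inH Γ c w.1 w.2.2))) := by
    intro w hw
    obtain ⟨_, h1, h2, h3⟩ := Finset.mem_filter.mp hw
    simp only [Finset.mem_union, Finset.mem_filter, Finset.mem_univ, true_and]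
    by_cases i1 : inH Γ c w.1 w.2.1
    · exact Or.inr (Or.inl ⟨h1, h2, h3, i1⟩)
    by_cases i2 : inH Γ c w.2.1 w.2.2
    · exact Or.inr (Or.inr (Or.inl ⟨⟨h1, h2, h3⟩, i2⟩))
    by_cases i3 : inH Γ c w.1 w.2.2
    · exact Or.inr (Or.inr (Or.inr ⟨⟨h1, h2, h3⟩, i3⟩))
    exact Or.inl ⟨⟨h1, i1⟩, ⟨h2, i2⟩, ⟨h3, i3⟩⟩
  have h1 := Finset.card_le_card hsub
  have h2 := Finset.card_union_le
    (Finset.univ.filter fun w : V × V × V => Gr Γ c w.1 w.2.1 ∧ Gr Γ c w.2.1 w.2.2 ∧ Gr Γ c w.1 w.2.2)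
      ((Finset.univ.filter fun w : V × V × V => on Γ c w.1 w.2.1 ∧ on Γ c w.2.1 w.2.2 ∧
        on Γ c w.1 w.2.2 ∧ inH Γ c w.1 w.2.1) ∪
      ((Finset.univ.filter fun w : V × V × V => (on Γ c w.1 w.2.1 ∧ on Γ c w.2.1 w.2.2 ∧
        on Γ c w.1 w.2.2) ∧ inH Γ c w.2.1 w.2.2) ∪
      (Finset.univ.filter fun w : V × V × V => (on Γ c w.1 w.2.1 ∧ on Γ c w.2.1 w.2.2 ∧
        on Γ c w.1 w.2.2) ∧ inH Γ c w.1 w.2.2)))
  have h3 := Finset.card_union_le
      (Finset.univ.filter fun w : V × V × V => on Γ c w.1 w.2.1 ∧ on Γ c w.2.1 w.2.2 ∧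
        on Γ c w.1 w.2.2 ∧ inH Γ c w.1 w.2.1)
      ((Finset.univ.filter fun w : V × V × V => (on Γ c w.1 w.2.1 ∧ on Γ c w.2.1 w.2.2 ∧
        on Γ c w.1 w.2.2) ∧ inH Γ c w.2.1 w.2.2) ∪
      (Finset.univ.filter fun w : V × V × V => (on Γ c w.1 w.2.1 ∧ on Γ c w.2.1 w.2.2 ∧
        on Γ c w.1 w.2.2) ∧ inH Γ c w.1 w.2.2))
  have h4 := Finset.card_union_le
      (Finset.univ.filter fun w : V × V × V => (on Γ c w.1 w.2.1 ∧ on Γ c w.2.1 w.2.2 ∧
        on Γ c w.1 w.2.2) ∧ inH Γ c w.2.1 w.2.2)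
      (Finset.univ.filter fun w : V × V × V => (on Γ c w.1 w.2.1 ∧ on Γ c w.2.1 w.2.2 ∧
        on Γ c w.1 w.2.2) ∧ inH Γ c w.1 w.2.2)
  have h5 : (Finset.univ.filter fun w : V × V × V => on Γ c w.1 w.2.1 ∧ on Γ c w.2.1 w.2.2 ∧
        on Γ c w.1 w.2.2 ∧ inH Γ c w.1 w.2.1).card = Bad Γ c := rfl
  unfold Tri
  omega

theorem gr_free (c : Sym2 V → Fin r) : ¬ ∃ p, H0 (Gr Γ c) p := by
  rintro ⟨p, hp⟩
  refine (hp.2 (0, 2) (by decide)).2 ⟨p, ⟨hp.1, fun w hw => (hp.2 w hw).1⟩, (0, 2), by decide, rfl, rfl⟩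

theorem tri_ex : ex (fun c : Sym2 V → Fin r => (Tri (on Γ c) : ℝ)) =
    (Tri Γ.Adj : ℝ) / (r : ℝ) ^ 3 := by
  have h1 : ∀ c : Sym2 V → Fin r, (Tri (on Γ c) : ℝ) =
      ∑ w : V × V × V, (if Γ.Adj w.1 w.2.1 ∧ Γ.Adj w.2.1 w.2.2 ∧ Γ.Adj w.1 w.2.2 then
        (if ∀ e ∈ ({s(w.1, w.2.1), s(w.2.1, w.2.2), s(w.1, w.2.2)} : Finset (Sym2 V)), c e = 0 then (1 : ℝ) else 0) else 0) := by
    intro c
    unfold Tri
    rw [Finset.card_filter]
    push_cast
    refine Finset.sum_congr rfl fun w _ => ?_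
    have hiff : (on Γ c w.1 w.2.1 ∧ on Γ c w.2.1 w.2.2 ∧ on Γ c w.1 w.2.2) ↔
        (Γ.Adj w.1 w.2.1 ∧ Γ.Adj w.2.1 w.2.2 ∧ Γ.Adj w.1 w.2.2) ∧
          ∀ e ∈ ({s(w.1, w.2.1), s(w.2.1, w.2.2), s(w.1, w.2.2)} : Finset (Sym2 V)), c e = 0 := by
      simp only [Finset.mem_insert, Finset.mem_singleton, forall_eq_or_imp, forall_eq]
      unfold on
      tauto
    by_cases hA : Γ.Adj w.1 w.2.1 ∧ Γ.Adj w.2.1 w.2.2 ∧ Γ.Adj w.1 w.2.2
    · rw [if_pos hA]
      by_cases hc : ∀ e ∈ ({s(w.1, w.2.1), s(w.2.1, w.2.2), s(w.1, w.2.2)} : Finset (Sym2 V)), c e = 0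
      · rw [if_pos hc, if_pos (hiff.mpr ⟨hA, hc⟩)]
      · rw [if_neg hc, if_neg fun h => hc (hiff.mp h).2]
    · rw [if_neg hA, if_neg fun h => hA (hiff.mp h).1]
  have h2 : (fun c : Sym2 V → Fin r => (Tri (on Γ c) : ℝ)) = fun c => ∑ w ∈ (Finset.univ : Finset (V × V × V)),
      (if Γ.Adj w.1 w.2.1 ∧ Γ.Adj w.2.1 w.2.2 ∧ Γ.Adj w.1 w.2.2 then
        (if ∀ e ∈ ({s(w.1, w.2.1), s(w.2.1, w.2.2), s(w.1, w.2.2)} : Finset (Sym2 V)), c e = 0 then (1 : ℝ) else 0) else 0) :=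
    funext h1
  rw [h2, ex_sum]
  have h3 : ∀ w : V × V × V, ex (fun c : Sym2 V → Fin r => (if Γ.Adj w.1 w.2.1 ∧ Γ.Adj w.2.1 w.2.2 ∧ Γ.Adj w.1 w.2.2 then
        (if ∀ e ∈ ({s(w.1, w.2.1), s(w.2.1, w.2.2), s(w.1, w.2.2)} : Finset (Sym2 V)), c e = 0 then (1 : ℝ) else 0) else 0)) =
      (if Γ.Adj w.1 w.2.1 ∧ Γ.Adj w.2.1 w.2.2 ∧ Γ.Adj w.1 w.2.2 then (1 : ℝ) else 0) / (r : ℝ) ^ 3 := by
    intro w
    by_cases hA : Γ.Adj w.1 w.2.1 ∧ Γ.Adj w.2.1 w.2.2 ∧ Γ.Adj w.1 w.2.2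
    · simp only [if_pos hA]
      rw [ex_zero]
      have h12 := hA.1.ne
      have h23 := hA.2.1.ne
      have h13 := hA.2.2.ne
      have hcard : ({s(w.1, w.2.1), s(w.2.1, w.2.2), s(w.1, w.2.2)} : Finset (Sym2 V)).card = 3 := by
        refine Finset.card_eq_three.mpr ⟨_, _, _, ?_, ?_, ?_, rfl⟩
        · intro h
          rcases Sym2.eq_iff.mp h with h | h
          · exact h12 h.1
          · exact h13 h.1
        · intro h
          rcases Sym2.eq_iff.mp h with h | h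
          · exact h23 h.2
          · exact h13 h.1
        · intro h
          rcases Sym2.eq_iff.mp h with h | h
          · exact h12 h.1.symm
          · exact h23 h.1
      rw [hcard, one_div, inv_pow, one_div]
    · simp only [if_neg hA]
      rw [ex_one, zero_div]
  rw [Finset.sum_congr rfl fun w _ => h3 w, ← Finset.sum_div]
  congr 1
  unfold Tri
  rw [Finset.card_filter]
  push_cast
  rfl

theorem bad_ex {D κ κ₁ κ₂ s : ℕ} (h : Host Γ D κ κ₁ κ₂ s) :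
    ex (fun c : Sym2 V → Fin r => (Bad Γ c : ℝ)) ≤
      (Ed Γ : ℝ) * s * (14 * D / (r : ℝ) ^ 9 + 42 / (r : ℝ) ^ 7) := by
  have h1 := ex_mono (bad_le Γ (r := r))
  refine h1.trans ?_
  rw [ex_sum]
  have hr : (0 : ℝ) ≤ 1 / r := by positivity
  have h2 : ∀ p ∈ PC Γ, ex (fun c : Sym2 V → Fin r => ∑ w ∈ HE, ∑ z : V, (if Ev Γ c (p, w, z) then (1 : ℝ) else 0)) ≤
      14 * (3 * (1 / (r : ℝ)) ^ 7 + D * (1 / (r : ℝ)) ^ 9) := by
    intro p hp
    have hp' : H0 Γ.Adj p := (Finset.mem_filter.mp hp).2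
    rw [ex_sum]
    have h3 : ∀ w ∈ HE, ex (fun c : Sym2 V → Fin r => ∑ z : V, (if Ev Γ c (p, w, z) then (1 : ℝ) else 0)) ≤
        3 * (1 / (r : ℝ)) ^ 7 + D * (1 / (r : ℝ)) ^ 9 := by
      intro w hw
      rw [ex_sum]
      refine (Finset.sum_le_sum fun z _ => ev_ex Γ hp' hw z).trans ?_
      rw [Finset.sum_add_distrib, ← Finset.sum_filter, ← Finset.sum_filter, Finset.sum_const, Finset.sum_const,
        nsmul_eq_mul, nsmul_eq_mul]
      have hD : (Finset.univ.filter fun z => Γ.Adj (p w.1) z ∧ Γ.Adj (p w.2) z).card = D :=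
        h.tri (p w.1) (p w.2) (hp'.2 w hw)
      have h3' : (Finset.univ.filter fun z => (Γ.Adj (p w.1) z ∧ Γ.Adj (p w.2) z) ∧ z ∈ Set.range p).card ≤ 3 := by
        have hsub : (Finset.univ.filter fun z => (Γ.Adj (p w.1) z ∧ Γ.Adj (p w.2) z) ∧ z ∈ Set.range p) ⊆
            ((Finset.univ : Finset (Fin 5)) \ {w.1, w.2}).image p := by
          intro z hz
          obtain ⟨_, ⟨ha, hb⟩, i, hi⟩ := Finset.mem_filter.mp hz
          refine Finset.mem_image.mpr ⟨i, ?_, hi⟩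
          rw [Finset.mem_sdiff, Finset.mem_insert, Finset.mem_singleton, not_or]
          refine ⟨Finset.mem_univ _, ?_, ?_⟩
          · rintro rfl
            exact ha.ne hi
          · rintro rfl
            exact hb.ne hi
        refine (Finset.card_le_card hsub).trans (Finset.card_image_le.trans ?_)
        rw [Finset.card_sdiff_of_subset (Finset.subset_univ _), Finset.card_pair (HE_ne w hw), Finset.card_univ,
          Fintype.card_fin]
      rw [hD]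
      refine add_le_add_left (mul_le_mul_of_nonneg_right ?_ (pow_nonneg hr _)) _
      exact_mod_cast h3'
    refine (Finset.sum_le_sum h3).trans (le_of_eq ?_)
    rw [Finset.sum_const, HE_card, nsmul_eq_mul]
    norm_num
  refine (Finset.sum_le_sum h2).trans ?_
  rw [Finset.sum_const, nsmul_eq_mul]
  have h4 : ((PC Γ).card : ℝ) ≤ (Ed Γ : ℝ) * s := by
    have := PC_card Γ h
    rw [mul_comm] at this
    exact_mod_cast this
  have h5 : (14 : ℝ) * (3 * (1 / (r : ℝ)) ^ 7 + D * (1 / (r : ℝ)) ^ 9) = 14 * D / (r : ℝ) ^ 9 + 42 / (r : ℝ) ^ 7 := by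
    rw [one_div, inv_pow, inv_pow]
    ring
  rw [h5]
  refine mul_le_mul_of_nonneg_right h4 ?_
  positivity

end Pool.Agent.H62.FK
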