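import Pool.Agent.H62.FK.Crit
import Pool.Agent.H62.FK.Lse
import Pool.Agent.H62.FK.Cutb
import Pool.Agent.H62.FK.Mom
import Pool.Agent.H62.FK.Rem

/-!
# Edge Folkman graphs without `H₀` (MP_eb1b1c_co): the abstract theorem

`mc_ex`: the mean of the sum of the maximal cuts. `abs_thm`: THE THEOREM for a host graph.
`Tri Γ = D Ed`; `E ∑_v MC v ≤ (e^λ - 1)/(λ r) ∑_v E MC0(U v) + log 2/λ Ed/r`, `E MC0(U v) ≤ t_v/r² (3/10 + ε + η/(4 ε))` with `t_v` the number of ordered edges of the link graph, `∑ t_v = Tri Γ`.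
-/

set_option autoImplicit false

open scoped Classical

noncomputable section

namespace Pool.Agent.H62.FK

variable {V : Type} [Fintype V] (Γ : SimpleGraph V) {r : ℕ} [NeZero r]

private theorem mem_U {c : Sym2 V → Fin r} {v x : V} :
    x ∈ U Γ c v ↔ Γ.Adj v x ∧ c s(v, x) = 0 :=
  ⟨fun h => (Finset.mem_filter.1 h).2, fun h => Finset.mem_filter.2 ⟨Finset.mem_univ _, h⟩⟩

private theorem ex_ind1 {v x : V} (hx : Γ.Adj v x) :
    ex (fun c : Sym2 V → Fin r => if x ∈ U Γ c v then (1 : ℝ) else 0) = 1 / (r : ℝ) := by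
  have h := ex_zero (V := V) (r := r) {s(v, x)}
  rw [Finset.card_singleton, pow_one] at h
  rw [← h]
  congr 1
  funext c
  refine if_congr ?_ rfl rfl
  rw [mem_U]
  simp only [Finset.mem_singleton, forall_eq, hx, true_and]

private theorem ex_ind2 {v x y : V} (hx : Γ.Adj v x) (hy : Γ.Adj v y) (hxy : x ≠ y) :
    ex (fun c : Sym2 V → Fin r => if x ∈ U Γ c v ∧ y ∈ U Γ c v then (1 : ℝ) else 0) =
      1 / (r : ℝ) ^ 2 := by
  have h := ex_zero (V := V) (r := r) {s(v, x), s(v, y)}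
  have hne : s(v, x) ≠ s(v, y) := fun he => hxy (Sym2.congr_right.1 he)
  rw [Finset.card_pair hne, one_div_pow] at h
  rw [← h]
  congr 1
  funext c
  refine if_congr ?_ rfl rfl
  rw [mem_U, mem_U]
  simp only [Finset.mem_insert, Finset.mem_singleton, forall_eq_or_imp, forall_eq, hx, hy,
    true_and]

private theorem Ed_eq : (Ed Γ : ℝ) = ∑ v, ∑ x, if Γ.Adj v x then (1 : ℝ) else 0 := by
  unfold Ed
  rw [Finset.card_filter, Nat.cast_sum, Fintype.sum_prod_type]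
  refine Finset.sum_congr rfl fun v _ => Finset.sum_congr rfl fun x _ => ?_
  push_cast
  rfl

private theorem ex_card (v : V) : ex (fun c : Sym2 V → Fin r => ((U Γ c v).card : ℝ)) =
    ∑ x, if Γ.Adj v x then 1 / (r : ℝ) else 0 := by
  have h1 : (fun c : Sym2 V → Fin r => ((U Γ c v).card : ℝ)) =
      fun c => ∑ x, if x ∈ U Γ c v then (1 : ℝ) else 0 := by
    funext c
    rw [Finset.sum_ite_mem, Finset.univ_inter, Finset.sum_const, nsmul_eq_mul, mul_one]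
  rw [h1, ex_sum]
  refine Finset.sum_congr rfl fun x _ => ?_
  by_cases hx : Γ.Adj v x
  · rw [if_pos hx]
    exact ex_ind1 Γ hx
  · rw [if_neg hx]
    have h2 : (fun c : Sym2 V → Fin r => if x ∈ U Γ c v then (1 : ℝ) else 0) = fun _ => 0 := by
      funext c
      rw [if_neg]
      intro h3
      exact hx ((mem_U Γ).1 h3).1
    rw [h2, ex_one]

/-- the triangles at `v` -/
private def Tv (v x y : V) : Prop := Γ.Adj v x ∧ Γ.Adj v y ∧ Γ.Adj x y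

private theorem cut_le (c : Sym2 V → Fin r) (v : V) (μ ε : ℝ) (hμ : 0 < μ) (hε : 0 < ε) :
    (MC0 Γ (U Γ c v) : ℝ) ≤ ∑ x, ∑ y, if Tv Γ v x y then
      (3 / 10 / μ * (if x ∈ U Γ c v ∧ y ∈ U Γ c v then (Nn Γ (U Γ c v) x y : ℝ) else 0) +
        (ε * (if x ∈ U Γ c v ∧ y ∈ U Γ c v then (1 : ℝ) else 0) + 1 / (4 * ε) *
          (if x ∈ U Γ c v ∧ y ∈ U Γ c v then ((Nn Γ (U Γ c v) x y : ℝ) / μ - 1) ^ 2 else 0)))
      else 0 := by
  refine (cutb Γ (U Γ c v) μ ε hμ hε).trans (le_of_eq ?_)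
  have key : ∀ f : V → V → ℝ, ∑ x ∈ U Γ c v, ∑ y ∈ U Γ c v, f x y =
      ∑ x, ∑ y, if x ∈ U Γ c v ∧ y ∈ U Γ c v then f x y else 0 := by
    intro f
    rw [← Finset.univ_inter (U Γ c v), ← Finset.sum_ite_mem]
    refine Finset.sum_congr rfl fun x _ => ?_
    rw [Finset.univ_inter]
    by_cases hx : x ∈ U Γ c v
    · rw [if_pos hx]
      rw [← Finset.univ_inter (U Γ c v), ← Finset.sum_ite_mem]
      refine Finset.sum_congr rfl fun y _ => ?_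
      rw [Finset.univ_inter]
      refine if_congr ?_ rfl rfl
      exact ⟨fun h => ⟨hx, h⟩, fun h => h.2⟩
    · rw [if_neg hx]
      symm
      refine Finset.sum_eq_zero fun y _ => ?_
      rw [if_neg]
      exact fun h => hx h.1
  rw [key, key, Finset.mul_sum, ← Finset.sum_add_distrib]
  refine Finset.sum_congr rfl fun x _ => ?_
  rw [Finset.mul_sum, ← Finset.sum_add_distrib]
  refine Finset.sum_congr rfl fun y _ => ?_
  by_cases hxy : x ∈ U Γ c v ∧ y ∈ U Γ c v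
  · simp only [if_pos hxy]
    have hx := ((mem_U Γ).1 hxy.1).1
    have hy := ((mem_U Γ).1 hxy.2).1
    by_cases ha : Γ.Adj x y
    · rw [if_pos ha, if_pos (show Tv Γ v x y from ⟨hx, hy, ha⟩)]
      ring
    · rw [if_neg ha, if_neg (show ¬ Tv Γ v x y from fun h => ha h.2.2)]
      have h0 : Nn Γ (U Γ c v) x y = 0 := by
        unfold Nn
        rw [Finset.card_eq_zero, Finset.filter_eq_empty_iff]
        intro z _ hz
        exact ha hz.2.1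
      rw [h0]
      simp
  · simp only [if_neg hxy]
    simp

private theorem mc0_ex {D κ κ₁ κ₂ s : ℕ} (h : Host Γ D κ κ₁ κ₂ s) (hκ : 0 < κ) (ε η : ℝ)
    (hε : 0 < ε)
    (hη : (3 * r * κ₁ + 3 * (r : ℝ) ^ 2 * κ₂ + 27 * (r : ℝ) ^ 3) / κ ≤ η) (v : V) :
    ex (fun c : Sym2 V → Fin r => (MC0 Γ (U Γ c v) : ℝ)) ≤
      ∑ x, ∑ y, if Tv Γ v x y then 1 / (r : ℝ) ^ 2 * (3 / 10 + ε + η / (4 * ε)) else 0 := by
  have hr : (0 : ℝ) < r := rpos
  have hκ' : (0 : ℝ) < κ := Nat.cast_pos.2 hκ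
  have hμ : (0 : ℝ) < (κ : ℝ) / (r : ℝ) ^ 3 := by positivity
  refine (ex_mono fun c => cut_le Γ c v _ ε hμ hε).trans ?_
  rw [ex_sum]
  refine Finset.sum_le_sum fun x _ => ?_
  rw [ex_sum]
  refine Finset.sum_le_sum fun y _ => ?_
  by_cases ht : Tv Γ v x y
  · simp only [if_pos ht]
    obtain ⟨hx, hy, hxy⟩ := ht
    have hext := h.ext v x y hx hy hxy
    rw [ex_add, ex_mul, ex_add, ex_mul, ex_mul, mom1 Γ v x y hx hy hxy, ex_ind2 Γ hx hy hxy.ne]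
    have h0 : (Ext Γ v x y).Nonempty := by
      rw [← Finset.card_pos, hext]
      exact hκ
    have h2 := mom2 (r := r) Γ v x y hx hy hxy κ₁ κ₂ h0 (fun w => h.ext1 v x y w hx hy hxy)
      (fun w w' hw => h.ext2 v x y w w' hx hy hxy hw)
    rw [hext] at h2 ⊢
    have h3 : (1 / (r : ℝ) ^ 2) * ((3 * r * κ₁ + 3 * (r : ℝ) ^ 2 * κ₂ + 27 * (r : ℝ) ^ 3) /
        (κ : ℝ)) ≤ (1 / (r : ℝ) ^ 2) * η := mul_le_mul_of_nonneg_left hη (by positivity)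
    have h4 := mul_le_mul_of_nonneg_left (h2.trans h3) (show (0 : ℝ) ≤ 1 / (4 * ε) by positivity)
    have h5 : 3 / 10 / ((κ : ℝ) / (r : ℝ) ^ 3) * ((κ : ℝ) / (r : ℝ) ^ 5) =
        1 / (r : ℝ) ^ 2 * (3 / 10) := by
      field_simp
    rw [h5]
    have h6 : 1 / (4 * ε) * (1 / (r : ℝ) ^ 2 * η) = 1 / (r : ℝ) ^ 2 * (η / (4 * ε)) := by
      ring
    rw [h6] at h4
    calc _ ≤ 1 / (r : ℝ) ^ 2 * (3 / 10) + (ε * (1 / (r : ℝ) ^ 2) +
          1 / (r : ℝ) ^ 2 * (η / (4 * ε))) := by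
            linarith
      _ = _ := by ring
  · simp only [if_neg ht]
    rw [ex_one]

private theorem tv_sum {D κ κ₁ κ₂ s : ℕ} (h : Host Γ D κ κ₁ κ₂ s) (a : ℝ) :
    ∑ v, ∑ x, ∑ y, (if Tv Γ v x y then a else 0) = (Ed Γ : ℝ) * D * a := by
  rw [Ed_eq, Finset.sum_mul, Finset.sum_mul]
  refine Finset.sum_congr rfl fun v _ => ?_
  rw [Finset.sum_mul, Finset.sum_mul]
  refine Finset.sum_congr rfl fun x _ => ?_
  by_cases hx : Γ.Adj v x
  · rw [if_pos hx, ← h.tri v x hx, one_mul, Finset.card_filter, Nat.cast_sum, Finset.sum_mul]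
    refine Finset.sum_congr rfl fun y _ => ?_
    by_cases hy : Γ.Adj v y ∧ Γ.Adj x y
    · rw [if_pos hy, if_pos (show Tv Γ v x y from ⟨hx, hy.1, hy.2⟩)]
      simp
    · rw [if_neg hy, if_neg (show ¬ Tv Γ v x y from fun h' => hy ⟨h'.2.1, h'.2.2⟩)]
      simp
  · rw [if_neg hx, zero_mul, zero_mul]
    refine Finset.sum_eq_zero fun y _ => ?_
    rw [if_neg]
    exact fun h' => hx h'.1

private theorem tri_eq {D κ κ₁ κ₂ s : ℕ} (h : Host Γ D κ κ₁ κ₂ s) :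
    (Tri Γ.Adj : ℝ) = (Ed Γ : ℝ) * D := by
  rw [← mul_one ((Ed Γ : ℝ) * D), ← tv_sum Γ h 1]
  unfold Tri
  rw [Finset.card_filter, Nat.cast_sum, Fintype.sum_prod_type]
  refine Finset.sum_congr rfl fun v _ => ?_
  rw [Fintype.sum_prod_type]
  refine Finset.sum_congr rfl fun x _ => Finset.sum_congr rfl fun y _ => ?_
  by_cases ht : Tv Γ v x y
  · rw [if_pos ht, if_pos (show Γ.Adj v x ∧ Γ.Adj x y ∧ Γ.Adj v y from ⟨ht.1, ht.2.2, ht.2.1⟩)]
    simp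
  · rw [if_neg ht, if_neg (show ¬ (Γ.Adj v x ∧ Γ.Adj x y ∧ Γ.Adj v y) from
      fun h' => ht ⟨h'.1, h'.2.2, h'.2.1⟩)]
    simp

theorem mc_ex {D κ κ₁ κ₂ s : ℕ} (h : Host Γ D κ κ₁ κ₂ s) (hκ : 0 < κ) (lam ε η : ℝ) (hl : 0 < lam)
    (hε : 0 < ε)
    (hη : (3 * r * κ₁ + 3 * (r : ℝ) ^ 2 * κ₂ + 27 * (r : ℝ) ^ 3) / κ ≤ η) :
    ex (fun c : Sym2 V → Fin r => ∑ v, (MC Γ c v : ℝ)) ≤
      (Real.exp lam - 1) / lam * ((Ed Γ : ℝ) * D / (r : ℝ) ^ 3) * (3 / 10 + ε + η / (4 * ε)) +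
        Real.log 2 / lam * ((Ed Γ : ℝ) / r) := by
  have hr : (0 : ℝ) < r := rpos
  have he : 0 ≤ (Real.exp lam - 1) / lam / r := by
    have h1 : (1 : ℝ) ≤ Real.exp lam := Real.one_le_exp hl.le
    have h2 : 0 ≤ Real.exp lam - 1 := by linarith
    positivity
  rw [ex_sum]
  have h1 : ∀ v, ex (fun c : Sym2 V → Fin r => (MC Γ c v : ℝ)) ≤
      (Real.exp lam - 1) / lam / r *
        (∑ x, ∑ y, if Tv Γ v x y then 1 / (r : ℝ) ^ 2 * (3 / 10 + ε + η / (4 * ε)) else 0) +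
        Real.log 2 / lam * (∑ x, if Γ.Adj v x then 1 / (r : ℝ) else 0) := by
    intro v
    refine (lse Γ v lam hl).trans ?_
    rw [ex_add, ex_mul, ex_mul, ex_card]
    exact add_le_add_left (mul_le_mul_of_nonneg_left (mc0_ex Γ h hκ ε η hε hη v) he) _
  refine (Finset.sum_le_sum fun v _ => h1 v).trans (le_of_eq ?_)
  rw [Finset.sum_add_distrib, ← Finset.mul_sum, ← Finset.mul_sum, tv_sum Γ h]
  have h2 : ∑ v, ∑ x, (if Γ.Adj v x then 1 / (r : ℝ) else 0) = (Ed Γ : ℝ) / r := by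
    rw [Ed_eq, Finset.sum_div]
    refine Finset.sum_congr rfl fun v _ => ?_
    rw [Finset.sum_div]
    refine Finset.sum_congr rfl fun x _ => ?_
    split_ifs
    · rfl
    · simp
  rw [h2]
  field_simp

private theorem HE_swap : ∀ w ∈ HE, (w.2, w.1) ∈ HE := by
  decide

private theorem on_symm (c : Sym2 V → Fin r) {x y : V} (h : on Γ c x y) : on Γ c y x :=
  ⟨h.1.symm, by rw [Sym2.eq_swap]; exact h.2⟩

private theorem inH_symm (c : Sym2 V → Fin r) {x y : V} (h : inH Γ c x y) : inH Γ c y x := by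
  obtain ⟨p, hp, w, hw, h1, h2⟩ := h
  exact ⟨p, hp, (w.2, w.1), HE_swap w hw, h2, h1⟩

theorem abs_thm {D κ κ₁ κ₂ s : ℕ} (h : Host Γ D κ κ₁ κ₂ s) (hκ : 0 < κ) (lam ε η : ℝ) (hl : 0 < lam)
    (hε : 0 < ε)
    (hη : (3 * r * κ₁ + 3 * (r : ℝ) ^ 2 * κ₂ + 27 * (r : ℝ) ^ 3) / κ ≤ η)
    (hfin : 3 * ((Real.exp lam - 1) / lam * (D / (r : ℝ) ^ 2) * (3 / 10 + ε + η / (4 * ε)) +
      Real.log 2 / lam) + 3 * s * (14 * D / (r : ℝ) ^ 8 + 42 / (r : ℝ) ^ 6) < D / (r : ℝ) ^ 2) :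
    ∃ A : SimpleGraph V, (¬ ∃ p, H0 A.Adj p) ∧ ∀ f : V → V → Bool,
      (∀ x y, A.Adj x y → f x y = f y x) →
        ∃ x y z, A.Adj x y ∧ A.Adj y z ∧ A.Adj x z ∧ f x y = f y z ∧ f y z = f x z := by
  have hr : (0 : ℝ) < r := rpos
  have hEd : (0 : ℝ) < Ed Γ := by
    obtain ⟨x, y, hxy⟩ := h.edge
    refine Nat.cast_pos.2 (Finset.card_pos.2 ⟨(x, y), ?_⟩)
    rw [Finset.mem_filter]
    exact ⟨Finset.mem_univ _, hxy⟩
  have hpos : 0 < ex (fun c : Sym2 V → Fin r => (Tri (on Γ c) : ℝ) -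
      3 * ((Bad Γ c : ℝ) + ∑ v, (MC Γ c v : ℝ))) := by
    rw [ex_sub, ex_mul, ex_add, tri_ex, tri_eq Γ h]
    have h1 := mc_ex Γ h hκ lam ε η hl hε hη
    have h2 := bad_ex (r := r) Γ h
    have h3 := mul_lt_mul_of_pos_left hfin (show (0 : ℝ) < (Ed Γ : ℝ) / r by positivity)
    have h4 : (Ed Γ : ℝ) / r * (D / (r : ℝ) ^ 2) = (Ed Γ : ℝ) * D / (r : ℝ) ^ 3 := by
      field_simp
    have h5 : (Ed Γ : ℝ) / r * (3 * ((Real.exp lam - 1) / lam * (D / (r : ℝ) ^ 2) *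
        (3 / 10 + ε + η / (4 * ε)) + Real.log 2 / lam) +
          3 * s * (14 * D / (r : ℝ) ^ 8 + 42 / (r : ℝ) ^ 6)) =
        3 * ((Real.exp lam - 1) / lam * ((Ed Γ : ℝ) * D / (r : ℝ) ^ 3) *
          (3 / 10 + ε + η / (4 * ε)) + Real.log 2 / lam * ((Ed Γ : ℝ) / r)) +
        3 * ((Ed Γ : ℝ) * s * (14 * D / (r : ℝ) ^ 9 + 42 / (r : ℝ) ^ 7)) := by
      generalize 3 / 10 + ε + η / (4 * ε) = q
      generalize Real.log 2 = l
      generalize Real.exp lam = e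
      field_simp
    rw [h4, h5] at h3
    linarith
  obtain ⟨c, hc⟩ := ex_pos hpos
  refine ⟨⟨Gr Γ c, ⟨fun x y hxy => ⟨on_symm Γ c hxy.1, fun hn => hxy.2 (inH_symm Γ c hn)⟩⟩,
    ⟨fun x hx => hx.1.1.ne rfl⟩⟩, gr_free Γ c, fun f hf => ?_⟩
  by_contra hcon
  have hm : ∀ x y z, Gr Γ c x y → Gr Γ c y z → Gr Γ c x z →
      ¬ (f x y = f y z ∧ f y z = f x z) := by
    intro x y z h1 h2 h3 h4
    exact hcon ⟨x, y, z, h1, h2, h3, h4.1, h4.2⟩
  have h1 := crit Γ c (Gr Γ c) (fun x y hxy => hxy.1)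
    (fun x y hxy => ⟨on_symm Γ c hxy.1, fun hn => hxy.2 (inH_symm Γ c hn)⟩) f hf hm
  have h2 := tri_ge Γ c
  have h3 : (Tri (on Γ c) : ℝ) ≤ 3 * ((Bad Γ c : ℝ) + ∑ v, (MC Γ c v : ℝ)) := by
    have h4 : Tri (on Γ c) ≤ 3 * (Bad Γ c + ∑ v, MC Γ c v) := by omega
    exact_mod_cast h4
  linarith

end Pool.Agent.H62.FK
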