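import Pool.Agent.H62.FK.Def

/-!
# Edge Folkman graphs without `H₀` (MP_eb1b1c_co): the criterion

A symmetric `f : V → V → Bool` without monochromatic triangle in a subgraph `A` of the random subgraph. For an ordered triangle `(x, y, z)` of `A` exactly one of
`(f x y, f x z)`, `(f y z, f y x)`, `(f z x, f z y)` is `(true, false)`: the three values `f x y`, `f y z`, `f z x` are not all equal. Summing over all ordered triangles and
using the cyclic symmetry: `Tri A = 3 * #{(v, x, y) : triangle, f v x = true, f v y = false}`. For fixed `v` the pairs `(x, y)` are in the cut `R = {x ∈ U v : f v x = true}`: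
at most `MC Γ c v`.
-/

set_option autoImplicit false

open scoped Classical

noncomputable section

namespace Pool.Agent.H62.FK

variable {V : Type} [Fintype V] (Γ : SimpleGraph V) {r : ℕ} [NeZero r]

/-- the ordered triangles with values `true`, `false` at the first vertex -/
private def Sf (A : V → V → Prop) (f : V → V → Bool) : Finset (V × V × V) :=
  Finset.univ.filter fun w => (A w.1 w.2.1 ∧ A w.2.1 w.2.2 ∧ A w.1 w.2.2) ∧
    f w.1 w.2.1 = true ∧ f w.1 w.2.2 = false

private theorem mem_Sf {A : V → V → Prop} {f : V → V → Bool} (x y z : V) :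
    (x, y, z) ∈ Sf A f ↔ (A x y ∧ A y z ∧ A x z) ∧ f x y = true ∧ f x z = false := by
  simp [Sf]

private theorem tri_le (A : V → V → Prop) (hs : ∀ x y, A x y → A y x) (f : V → V → Bool)
    (hf : ∀ x y, A x y → f x y = f y x)
    (hm : ∀ x y z, A x y → A y z → A x z → ¬ (f x y = f y z ∧ f y z = f x z)) :
    Tri A ≤ 3 * (Sf A f).card := by
  have h1 : (Finset.univ.filter fun w : V × V × V => A w.1 w.2.1 ∧ A w.2.1 w.2.2 ∧ A w.1 w.2.2) ⊆
      (Sf A f ∪ (Sf A f).image fun w => (w.2.2, w.1, w.2.1)) ∪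
        (Sf A f).image fun w => (w.2.1, w.2.2, w.1) := by
    rintro ⟨x, y, z⟩ h
    obtain ⟨h1, h2, h3⟩ := (Finset.mem_filter.1 h).2
    have e1 := hf x y h1
    have e2 := hf y z h2
    have e3 := hf x z h3
    have hn := hm x y z h1 h2 h3
    rw [Finset.mem_union, Finset.mem_union, Finset.mem_image, Finset.mem_image]
    by_cases a : f x y = true
    · by_cases c : f x z = true
      · -- the value at `y z` is false
        have b : f y z = false := by
          by_contra hb
          rw [Bool.not_eq_false] at hb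
          exact hn ⟨a.trans hb.symm, hb.trans c.symm⟩
        refine Or.inr ⟨(z, x, y), (mem_Sf z x y).2 ⟨⟨hs _ _ h3, h1, hs _ _ h2⟩, ?_, ?_⟩, rfl⟩
        · rw [← e3]; exact c
        · rw [← e2]; exact b
      · rw [Bool.not_eq_true] at c
        exact Or.inl (Or.inl ((mem_Sf x y z).2 ⟨⟨h1, h2, h3⟩, a, c⟩))
    · rw [Bool.not_eq_true] at a
      by_cases b : f y z = true
      · refine Or.inl (Or.inr ⟨(y, z, x), (mem_Sf y z x).2 ⟨⟨h2, hs _ _ h3, hs _ _ h1⟩, b, ?_⟩, rfl⟩)
        rw [← e1]; exact a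
      · rw [Bool.not_eq_true] at b
        have c : f x z = true := by
          by_contra hc
          rw [Bool.not_eq_true] at hc
          exact hn ⟨a.trans b.symm, b.trans hc.symm⟩
        refine Or.inr ⟨(z, x, y), (mem_Sf z x y).2 ⟨⟨hs _ _ h3, h1, hs _ _ h2⟩, ?_, ?_⟩, rfl⟩
        · rw [← e3]; exact c
        · rw [← e2]; exact b
  have h2 := Finset.card_le_card h1
  have h3 := Finset.card_union_le (Sf A f ∪ (Sf A f).image fun w => (w.2.2, w.1, w.2.1))
    ((Sf A f).image fun w => (w.2.1, w.2.2, w.1))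
  have h4 := Finset.card_union_le (Sf A f) ((Sf A f).image fun w => (w.2.2, w.1, w.2.1))
  have h5 := Finset.card_image_le (s := Sf A f) (f := fun w => (w.2.2, w.1, w.2.1))
  have h6 := Finset.card_image_le (s := Sf A f) (f := fun w => (w.2.1, w.2.2, w.1))
  rw [Tri]
  omega

theorem crit (c : Sym2 V → Fin r) (A : V → V → Prop) (hA : ∀ x y, A x y → on Γ c x y)
    (hs : ∀ x y, A x y → A y x) (f : V → V → Bool) (hf : ∀ x y, A x y → f x y = f y x)
    (hm : ∀ x y z, A x y → A y z → A x z → ¬ (f x y = f y z ∧ f y z = f x z)) :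
    Tri A ≤ 3 * ∑ v, MC Γ c v := by
  refine (tri_le A hs f hf hm).trans (Nat.mul_le_mul_left 3 ?_)
  rw [Finset.card_eq_sum_card_fiberwise (f := fun w : V × V × V => w.1) (t := Finset.univ)
    (fun _ _ => Finset.mem_coe.2 (Finset.mem_univ _))]
  refine Finset.sum_le_sum fun v _ => ?_
  obtain ⟨R, hR⟩ : ∃ R, R = (U Γ c v).filter fun x => f v x = true := ⟨_, rfl⟩
  have h1 : ((Sf A f).filter fun w => w.1 = v).card ≤ cut Γ c R (U Γ c v \ R) := by
    unfold cut
    refine Finset.card_le_card_of_injOn (fun w => w.2) ?_ ?_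
    · rintro ⟨x, y, z⟩ h
      have h' := Finset.mem_filter.1 (Finset.mem_coe.1 h)
      obtain ⟨⟨⟨a1, a2, a3⟩, a4, a5⟩, a6⟩ := And.imp_left (mem_Sf x y z).1 h'
      have a6' : x = v := a6
      subst a6'
      have u1 : y ∈ U Γ c x := Finset.mem_filter.2 ⟨Finset.mem_univ _, hA _ _ a1⟩
      have u2 : z ∈ U Γ c x := Finset.mem_filter.2 ⟨Finset.mem_univ _, hA _ _ a3⟩
      refine Finset.mem_coe.2 (Finset.mem_filter.2 ⟨Finset.mem_product.2 ⟨?_, ?_⟩, hA _ _ a2⟩)
      · rw [hR]
        exact Finset.mem_filter.2 ⟨u1, a4⟩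
      · rw [hR]
        refine Finset.mem_sdiff.2 ⟨u2, fun h2 => ?_⟩
        have h3 := (Finset.mem_filter.1 h2).2
        have h4 : f x z = true := h3
        rw [a5] at h4
        exact absurd h4 (by simp)
    · rintro ⟨x, y, z⟩ h ⟨x', y', z'⟩ h' he
      have a := (Finset.mem_filter.1 (Finset.mem_coe.1 h)).2
      have a' := (Finset.mem_filter.1 (Finset.mem_coe.1 h')).2
      have b : x = v := a
      have b' : x' = v := a'
      have he' : (y, z) = (y', z') := he
      rw [b, b', he']
  refine h1.trans ?_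
  unfold MC
  refine Finset.le_sup (f := fun R => cut Γ c R (U Γ c v \ R)) (Finset.mem_powerset.2 ?_)
  rw [hR]
  exact Finset.filter_subset _ _

end Pool.Agent.H62.FK
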