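import Pool.Agent.H62.FK.Ten

/-!
# Edge Folkman graphs without `H₀` (MP_eb1b1c_co): the base graph

`hc`: the graph on `Fin 128`, `x ~ y` iff `x xor y` has one or two binary digits 1 (the half cube: distance 2 in the even weight code of length 8, the last coordinate removed). `isS n`: the bit `n` of
the constant `mask` (the sum of the `2 ^ n` over the 28 numbers `n` with one or two digits 1).
`cube`: every edge in 12 triangles, every triangle has 60 extensions to a clique of six vertices (12 with one, 3 with two of the new vertices given), 1560.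
Proof. Translation `x ↦ x xor v` gives `v = 0`; `card {y : isS (v xor y), P y}` is the number of the `t` in the list `S` of the 28 elements with `P (v xor t)`; then `decide +kernel` on
Boolean functions of natural numbers (lists), no `native_decide`.
-/

set_option autoImplicit false

open scoped Classical

noncomputable section

namespace Pool.Agent.H62.FK

/-- the sum of the `2 ^ n`, `n < 128` with one or two binary digits 1 -/
def mask : ℕ := 2 ^ 1 + 2 ^ 2 + 2 ^ 3 + 2 ^ 4 + 2 ^ 5 + 2 ^ 6 + 2 ^ 8 + 2 ^ 9 + 2 ^ 10 + 2 ^ 12 +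
  2 ^ 16 + 2 ^ 17 + 2 ^ 18 + 2 ^ 20 + 2 ^ 24 + 2 ^ 32 + 2 ^ 33 + 2 ^ 34 + 2 ^ 36 + 2 ^ 40 + 2 ^ 48 +
  2 ^ 64 + 2 ^ 65 + 2 ^ 66 + 2 ^ 68 + 2 ^ 72 + 2 ^ 80 + 2 ^ 96

/-- one or two binary digits 1 (for `n < 128`) -/
def isS (n : ℕ) : Bool := mask.testBit n

/-- the half cube -/
def hc : SimpleGraph (Fin 128) where
  Adj x y := isS (x.val ^^^ y.val) = true
  symm := ⟨fun x y h => by rw [Nat.xor_comm]; exact h⟩
  loopless := ⟨fun x h => by
    rw [Nat.xor_self] at h
    exact absurd h (by decide +kernel)⟩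

/-- the 28 numbers -/
private def SL : List ℕ := [1, 2, 3, 4, 5, 6, 8, 9, 10, 12, 16, 17, 18, 20, 24, 32, 33, 34, 36, 40, 48, 64,
  65, 66, 68, 72, 80, 96]

private theorem memSL : ∀ n < 128, (isS n = true ↔ n ∈ SL) := by decide +kernel

private theorem ndSL : SL.Nodup := by decide +kernel

private theorem ltSL : ∀ n ∈ SL, n < 128 := by decide +kernel

private theorem xlt (v y : Fin 128) : v.val ^^^ y.val < 128 :=
  Nat.xor_lt_two_pow (n := 7) v.isLt y.isLt

/-- translation -/
private def tr (v y : Fin 128) : Fin 128 := ⟨v.val ^^^ y.val, xlt v y⟩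

private theorem tr_tr (v : Fin 128) : Function.Involutive (tr v) := by
  intro y
  apply Fin.ext
  show v.val ^^^ (v.val ^^^ y.val) = y.val
  rw [← Nat.xor_assoc, Nat.xor_self, Nat.zero_xor]

private theorem sum128 (v : Fin 128) (g : ℕ → ℕ) :
    ∑ y : Fin 128, g (v.val ^^^ y.val) = ∑ n ∈ Finset.range 128, g n := by
  rw [← Fin.sum_univ_eq_sum_range]
  exact Equiv.sum_comp (tr_tr v).toPerm (fun y : Fin 128 => g y.val)

private theorem list_cond (p : ℕ → Bool) (g : ℕ → ℕ) (l : List ℕ) :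
    (l.map fun n => cond (p n) (g n) 0).sum = ((l.filter p).map g).sum := by
  induction l with
  | nil => rfl
  | cons a l ih =>
    rw [List.map_cons, List.sum_cons, ih]
    cases h : p a
    · rw [List.filter_cons_of_neg (by rw [h]; decide)]
      simp
    · rw [List.filter_cons_of_pos h, List.map_cons, List.sum_cons]
      rfl

private theorem sumS (v : Fin 128) (p : ℕ → Bool) (g : ℕ → ℕ) :
    ∑ y : Fin 128, cond (isS (v.val ^^^ y.val) && p (v.val ^^^ y.val)) (g (v.val ^^^ y.val)) 0 =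
      ((SL.filter p).map g).sum := by
  rw [sum128 v (fun n => cond (isS n && p n) (g n) 0), ← list_cond, ← List.sum_toFinset _ ndSL]
  symm
  have h1 : ∑ n ∈ SL.toFinset, cond (p n) (g n) 0 =
      ∑ n ∈ SL.toFinset, cond (isS n && p n) (g n) 0 := by
    refine Finset.sum_congr rfl fun n hn => ?_
    rw [List.mem_toFinset] at hn
    rw [(memSL n (ltSL n hn)).mpr hn]
    rfl
  rw [h1]
  refine Finset.sum_subset ?_ ?_
  · intro n hn
    rw [List.mem_toFinset] at hn
    exact Finset.mem_range.mpr (ltSL n hn)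
  · intro n hn hn2
    rw [List.mem_toFinset, ← memSL n (Finset.mem_range.mp hn)] at hn2
    rw [Bool.not_eq_true] at hn2
    rw [hn2]
    rfl

/-- common neighbours -/
private def n3 (s t a b : ℕ) : ℕ :=
  (SL.filter fun c => isS (s ^^^ c) && isS (t ^^^ c) && isS (a ^^^ c) && isS (b ^^^ c)).length

private def n2 (s t a : ℕ) : ℕ :=
  ((SL.filter fun b => isS (s ^^^ b) && isS (t ^^^ b) && isS (a ^^^ b)).map fun b => n3 s t a b).sum

private def n1 (s t : ℕ) : ℕ :=
  ((SL.filter fun a => isS (s ^^^ a) && isS (t ^^^ a)).map fun a => n2 s t a).sum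

private def chk : Bool := SL.all fun s => (SL.filter fun t => isS (s ^^^ t)).length == 12 &&
  SL.all fun t => !isS (s ^^^ t) || (n1 s t == 60 &&
    (SL.filter fun a => isS (s ^^^ a) && isS (t ^^^ a)).all fun a => (n2 s t a).ble 12 &&
      (SL.filter fun b => isS (s ^^^ b) && isS (t ^^^ b) && isS (a ^^^ b)).all fun b =>
        (n3 s t a b).ble 3)

private theorem chk_true : chk = true := by decide +kernel

private def hh (s : ℕ) : ℕ := ((SL.filter fun a => isS (s ^^^ a)).map fun a =>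
  ((SL.filter fun b => isS (s ^^^ b)).map fun b =>
    (SL.filter fun u => isS (u ^^^ (a ^^^ b))).length).sum).sum

private theorem hh_true : (SL.all fun s => (hh s).ble 1560) = true := by decide +kernel


private theorem xx (a b c : ℕ) : (a ^^^ b) ^^^ (a ^^^ c) = b ^^^ c := by
  rw [Nat.xor_comm a b, Nat.xor_assoc, ← Nat.xor_assoc a a c, Nat.xor_self, Nat.zero_xor]

private theorem sumS1 (v : Fin 128) (p : ℕ → Bool) :
    ∑ y : Fin 128, cond (isS (v.val ^^^ y.val) && p (v.val ^^^ y.val)) 1 0 =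
      (SL.filter p).length := by
  rw [sumS v p (fun _ => 1), List.map_const', List.sum_replicate, smul_eq_mul, mul_one]

private theorem cond_and (a b : Bool) (n : ℕ) : cond (a && b) n 0 = cond a (cond b n 0) 0 := by
  cases a <;> rfl

private theorem sum_cond {ι : Type} [Fintype ι] (a : Bool) (f : ι → ℕ) :
    ∑ i, cond a (f i) 0 = cond a (∑ i, f i) 0 := by
  cases a
  · exact Finset.sum_const_zero
  · rfl

private theorem card_cond {ι : Type} [Fintype ι] (P : ι → Prop) [DecidablePred P] (b : ι → Bool)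
    (h : ∀ i, P i ↔ b i = true) : (Finset.univ.filter P).card = ∑ i, cond (b i) 1 0 := by
  rw [Finset.card_filter]
  refine Finset.sum_congr rfl fun i _ => ?_
  by_cases hP : P i
  · rw [if_pos hP, (h i).mp hP]
    rfl
  · rw [if_neg hP]
    have : b i = false := by
      rw [← Bool.not_eq_true]
      exact fun h2 => hP ((h i).mpr h2)
    rw [this]
    rfl

private theorem chk1 {s : ℕ} (hs : s ∈ SL) : (SL.filter fun t => isS (s ^^^ t)).length = 12 := by
  have h := List.all_eq_true.mp chk_true s hs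
  rw [Bool.and_eq_true] at h
  exact eq_of_beq h.1

private theorem chk2 {s t : ℕ} (hs : s ∈ SL) (ht : t ∈ SL) (hst : isS (s ^^^ t) = true) :
    n1 s t = 60 ∧ ∀ a ∈ SL.filter (fun a => isS (s ^^^ a) && isS (t ^^^ a)), n2 s t a ≤ 12 ∧
      ∀ b ∈ SL.filter (fun b => isS (s ^^^ b) && isS (t ^^^ b) && isS (a ^^^ b)),
        n3 s t a b ≤ 3 := by
  have h := List.all_eq_true.mp chk_true s hs
  rw [Bool.and_eq_true] at h
  have h2 := List.all_eq_true.mp h.2 t ht
  rw [hst, Bool.not_true, Bool.false_or, Bool.and_eq_true] at h2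
  refine ⟨eq_of_beq h2.1, fun a ha => ?_⟩
  have h3 := List.all_eq_true.mp h2.2 a ha
  rw [Bool.and_eq_true] at h3
  refine ⟨Nat.le_of_ble_eq_true h3.1, fun b hb => ?_⟩
  exact Nat.le_of_ble_eq_true (List.all_eq_true.mp h3.2 b hb)

private theorem adj_val {x y : Fin 128} : hc.Adj x y ↔ isS (x.val ^^^ y.val) = true := Iff.rfl

private theorem mem_of_adj {x y : Fin 128} (h : hc.Adj x y) : x.val ^^^ y.val ∈ SL :=
  (memSL _ (xlt x y)).mp h

/-- the conditions at one new vertex -/
private def A1 (s t a : ℕ) : Bool := isS (s ^^^ a) && isS (t ^^^ a)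

private def A2 (s t a b : ℕ) : Bool := isS (s ^^^ b) && isS (t ^^^ b) && isS (a ^^^ b)

private def A3 (s t a b c : ℕ) : Bool :=
  isS (s ^^^ c) && isS (t ^^^ c) && isS (a ^^^ c) && isS (b ^^^ c)

/-- the condition for an extension, moved to the origin -/
private def EE (s t a b c : ℕ) : Bool :=
  (isS a && A1 s t a) && ((isS b && A2 s t a b) && (isS c && A3 s t a b c))

private theorem sum_c (v : Fin 128) (s t a b : ℕ) :
    ∑ c : Fin 128, cond (EE s t a b (v.val ^^^ c.val)) 1 0 =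
      cond (isS a && A1 s t a) (cond (isS b && A2 s t a b) (n3 s t a b) 0) 0 := by
  unfold EE
  simp only [cond_and (isS a && A1 s t a), cond_and (isS b && A2 s t a b), sum_cond]
  rw [sumS1 v (fun c => A3 s t a b c)]
  rfl

private theorem sum_bc (v : Fin 128) (s t a : ℕ) :
    ∑ b : Fin 128, ∑ c : Fin 128, cond (EE s t a (v.val ^^^ b.val) (v.val ^^^ c.val)) 1 0 =
      cond (isS a && A1 s t a) (n2 s t a) 0 := by
  simp only [sum_c]
  rw [sum_cond, sumS v (fun b => A2 s t a b) (fun b => n3 s t a b)]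
  rfl

private theorem sum_abc (v : Fin 128) (s t : ℕ) :
    ∑ a : Fin 128, ∑ b : Fin 128, ∑ c : Fin 128,
      cond (EE s t (v.val ^^^ a.val) (v.val ^^^ b.val) (v.val ^^^ c.val)) 1 0 = n1 s t := by
  simp only [sum_bc]
  rw [sumS v (fun a => A1 s t a) (fun a => n2 s t a)]
  rfl

private theorem ext_iff (v x y : Fin 128) (hxy : hc.Adj x y) (z : Fin 3 → Fin 128) :
    z ∈ Ext hc v x y ↔ EE (v.val ^^^ x.val) (v.val ^^^ y.val) (v.val ^^^ (z 0).val)
      (v.val ^^^ (z 1).val) (v.val ^^^ (z 2).val) = true := by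
  unfold EE A1 A2 A3
  simp only [xx, Bool.and_eq_true]
  unfold Ext Cl
  simp only [Finset.mem_filter, Finset.mem_univ, true_and]
  constructor
  · rintro ⟨h1, -, h2, h3, h4⟩
    exact ⟨⟨h1 0, h2 0, h3 0⟩, ⟨h1 1, ⟨h2 1, h3 1⟩, h4 0 1 (by decide)⟩,
      ⟨h1 2, ⟨⟨h2 2, h3 2⟩, h4 0 2 (by decide)⟩, h4 1 2 (by decide)⟩⟩
  · rintro ⟨⟨a1, a2, a3⟩, ⟨b1, ⟨b2, b3⟩, b4⟩, ⟨c1, ⟨⟨c2, c3⟩, c4⟩, c5⟩⟩
    have k1 : hc.Adj (z 0) (z 1) := b4
    have k2 : hc.Adj (z 0) (z 2) := c4
    have k3 : hc.Adj (z 1) (z 2) := c5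
    refine ⟨?_, hxy, ?_, ?_, ?_⟩
    · intro i
      fin_cases i
      · exact a1
      · exact b1
      · exact c1
    · intro i
      fin_cases i
      · exact a2
      · exact b2
      · exact c2
    · intro i
      fin_cases i
      · exact a3
      · exact b3
      · exact c3
    · intro i j hij
      fin_cases i <;> fin_cases j
      · exact absurd rfl hij
      · exact k1
      · exact k2
      · exact k1.symm
      · exact absurd rfl hij
      · exact k3
      · exact k2.symm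
      · exact k3.symm
      · exact absurd rfl hij

/-- triples as functions -/
private def e3 (V : Type) : (V × V × V) ≃ (Fin 3 → V) where
  toFun w := ![w.1, w.2.1, w.2.2]
  invFun z := (z 0, z 1, z 2)
  left_inv w := rfl
  right_inv z := by
    funext i
    fin_cases i <;> rfl

private theorem card_ext (v x y : Fin 128) (hxy : hc.Adj x y) :
    (Ext hc v x y).card = n1 (v.val ^^^ x.val) (v.val ^^^ y.val) := by
  rw [← sum_abc v, ← Finset.filter_univ_mem (Ext hc v x y),
    card_cond _ _ (ext_iff v x y hxy), ← Equiv.sum_comp (e3 (Fin 128)), Fintype.sum_prod_type]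
  refine Finset.sum_congr rfl fun a _ => ?_
  rw [Fintype.sum_prod_type]
  rfl

section

variable {W : Type} [Fintype W] (B : SimpleGraph W)

private theorem perm_ext {v x y : W} {z : Fin 3 → W} (h : z ∈ Ext B v x y)
    (σ : Equiv.Perm (Fin 3)) : (fun i => z (σ i)) ∈ Ext B v x y := by
  unfold Ext Cl at h ⊢
  simp only [Finset.mem_filter, Finset.mem_univ, true_and] at h ⊢
  exact ⟨fun i => h.1 _, h.2.1, fun i => h.2.2.1 _, fun i => h.2.2.2.1 _,
    fun i j hij => h.2.2.2.2 _ _ (fun h2 => hij (σ.injective h2))⟩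

private theorem gen1 (v x y w : W) (R : W → W → W → Prop)
    (h : ∀ z ∈ Ext B v x y, R (z 0) (z 1) (z 2)) :
    ((Ext B v x y).filter fun z => z 0 = w).card ≤
      (Finset.univ.filter fun p : W × W => R w p.1 p.2).card := by
  refine Finset.card_le_card_of_injOn (fun z => (z 1, z 2)) ?_ ?_
  · intro z hz
    rw [Finset.mem_coe, Finset.mem_filter] at hz
    rw [Finset.mem_coe, Finset.mem_filter]
    refine ⟨Finset.mem_univ _, ?_⟩
    have := h z hz.1
    rw [hz.2] at this
    exact this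
  · intro z hz z' hz' h
    rw [Finset.mem_coe, Finset.mem_filter] at hz hz'
    rw [Prod.mk.injEq] at h
    funext i
    fin_cases i
    · exact hz.2.trans hz'.2.symm
    · exact h.1
    · exact h.2

private theorem gen2 (v x y w w' : W) (R : W → W → W → Prop)
    (h : ∀ z ∈ Ext B v x y, R (z 0) (z 1) (z 2)) :
    ((Ext B v x y).filter fun z => z 0 = w ∧ z 1 = w').card ≤
      (Finset.univ.filter fun p : W => R w w' p).card := by
  refine Finset.card_le_card_of_injOn (fun z => z 2) ?_ ?_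
  · intro z hz
    rw [Finset.mem_coe, Finset.mem_filter] at hz
    rw [Finset.mem_coe, Finset.mem_filter]
    refine ⟨Finset.mem_univ _, ?_⟩
    have := h z hz.1
    rw [hz.2.1, hz.2.2] at this
    exact this
  · intro z hz z' hz' h
    rw [Finset.mem_coe, Finset.mem_filter] at hz hz'
    funext i
    fin_cases i
    · exact hz.2.1.trans hz'.2.1.symm
    · exact hz.2.2.trans hz'.2.2.symm
    · exact h

private theorem gen1i (v x y w : W) (i : Fin 3) (n : ℕ)
    (h : ((Ext B v x y).filter fun z => z 0 = w).card ≤ n) :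
    ((Ext B v x y).filter fun z => z i = w).card ≤ n := by
  refine le_trans ?_ h
  refine Finset.card_le_card_of_injOn (fun z => fun j => z (Equiv.swap 0 i j)) ?_ ?_
  · intro z hz
    rw [Finset.mem_coe, Finset.mem_filter] at hz
    rw [Finset.mem_coe, Finset.mem_filter]
    refine ⟨perm_ext B hz.1 _, ?_⟩
    show z (Equiv.swap 0 i 0) = w
    rw [Equiv.swap_apply_left]
    exact hz.2
  · intro z hz z' hz' h
    funext j
    have := congrFun h (Equiv.swap 0 i j)
    simpa only [Equiv.swap_apply_self] using this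

private theorem exists_perm : ∀ i j : Fin 3, i ≠ j →
    ∃ σ : Equiv.Perm (Fin 3), σ 0 = i ∧ σ 1 = j := by
  decide

private theorem gen2i (v x y w w' : W) (i j : Fin 3) (hij : i ≠ j) (n : ℕ)
    (h : ((Ext B v x y).filter fun z => z 0 = w ∧ z 1 = w').card ≤ n) :
    ((Ext B v x y).filter fun z => z i = w ∧ z j = w').card ≤ n := by
  obtain ⟨σ, h0, h1⟩ := exists_perm i j hij
  refine le_trans ?_ h
  refine Finset.card_le_card_of_injOn (fun z => fun j => z (σ j)) ?_ ?_
  · intro z hz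
    rw [Finset.mem_coe, Finset.mem_filter] at hz
    rw [Finset.mem_coe, Finset.mem_filter]
    refine ⟨perm_ext B hz.1 _, ?_⟩
    show z (σ 0) = w ∧ z (σ 1) = w'
    rw [h0, h1]
    exact hz.2
  · intro z hz z' hz' h
    funext j
    have := congrFun h (σ.symm j)
    simpa only [Equiv.apply_symm_apply] using this

private theorem gen1c (v x y w : W) (i : Fin 3) (n : ℕ) (R : W → W → W → Prop)
    (h : ∀ z ∈ Ext B v x y, R (z 0) (z 1) (z 2)) [DecidablePred fun p : W × W => R w p.1 p.2]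
    (hR : (Finset.univ.filter fun p : W × W => R w p.1 p.2).card ≤ n) :
    ((Ext B v x y).filter fun z => z i = w).card ≤ n := by
  refine gen1i B v x y w i n ((gen1 B v x y w R h).trans (le_trans (le_of_eq ?_) hR))
  congr

private theorem gen2c (v x y w w' : W) (i j : Fin 3) (hij : i ≠ j) (n : ℕ) (R : W → W → W → Prop)
    (h : ∀ z ∈ Ext B v x y, R (z 0) (z 1) (z 2)) [DecidablePred fun p : W => R w w' p]
    (hR : (Finset.univ.filter fun p : W => R w w' p).card ≤ n) :
    ((Ext B v x y).filter fun z => z i = w ∧ z j = w').card ≤ n := by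
  refine gen2i B v x y w w' i j hij n ((gen2 B v x y w w' R h).trans (le_trans (le_of_eq ?_) hR))
  congr

end

private theorem sum1 (v w : Fin 128) (s t : ℕ) (hs : s ∈ SL) (ht : t ∈ SL) (hst : isS (s ^^^ t) = true) :
    cond (isS (v.val ^^^ w.val) && A1 s t (v.val ^^^ w.val)) (n2 s t (v.val ^^^ w.val)) 0 ≤ 12 := by
  cases hA : (isS (v.val ^^^ w.val) && A1 s t (v.val ^^^ w.val))
  · exact Nat.zero_le _
  · rw [Bool.and_eq_true] at hA
    exact ((chk2 hs ht hst).2 _
      (List.mem_filter.mpr ⟨(memSL _ (xlt v w)).mp hA.1, hA.2⟩)).1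

private theorem sum2 (v w w' : Fin 128) (s t : ℕ) (hs : s ∈ SL) (ht : t ∈ SL)
    (hst : isS (s ^^^ t) = true) :
    cond (isS (v.val ^^^ w.val) && A1 s t (v.val ^^^ w.val))
      (cond (isS (v.val ^^^ w'.val) && A2 s t (v.val ^^^ w.val) (v.val ^^^ w'.val))
        (n3 s t (v.val ^^^ w.val) (v.val ^^^ w'.val)) 0) 0 ≤ 3 := by
  cases hA : (isS (v.val ^^^ w.val) && A1 s t (v.val ^^^ w.val))
  · exact Nat.zero_le _
  · cases hB : (isS (v.val ^^^ w'.val) && A2 s t (v.val ^^^ w.val) (v.val ^^^ w'.val))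
    · exact Nat.zero_le _
    · rw [Bool.and_eq_true] at hA hB
      exact ((chk2 hs ht hst).2 _
        (List.mem_filter.mpr ⟨(memSL _ (xlt v w)).mp hA.1, hA.2⟩)).2 _
        (List.mem_filter.mpr ⟨(memSL _ (xlt v w')).mp hB.1, hB.2⟩)

private theorem hst_of {v x y : Fin 128} (hxy : hc.Adj x y) :
    isS ((v.val ^^^ x.val) ^^^ (v.val ^^^ y.val)) = true := by
  rw [xx]
  exact hxy

private theorem ext1a (v x y w : Fin 128) (hvx : hc.Adj v x) (hvy : hc.Adj v y) (hxy : hc.Adj x y) :
    (Finset.univ.filter fun p : Fin 128 × Fin 128 => EE (v.val ^^^ x.val) (v.val ^^^ y.val)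
    (v.val ^^^ w.val) (v.val ^^^ p.1.val) (v.val ^^^ p.2.val) = true).card ≤ 12 := by
  rw [card_cond (fun p : Fin 128 × Fin 128 => EE (v.val ^^^ x.val) (v.val ^^^ y.val)
    (v.val ^^^ w.val) (v.val ^^^ p.1.val) (v.val ^^^ p.2.val) = true) _ (fun p => Iff.rfl),
    Fintype.sum_prod_type, sum_bc]
  exact sum1 v w _ _ (mem_of_adj hvx) (mem_of_adj hvy) (hst_of hxy)

private theorem ext2a (v x y w w' : Fin 128) (hvx : hc.Adj v x) (hvy : hc.Adj v y) (hxy : hc.Adj x y) :
    (Finset.univ.filter fun p : Fin 128 => EE (v.val ^^^ x.val) (v.val ^^^ y.val)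
    (v.val ^^^ w.val) (v.val ^^^ w'.val) (v.val ^^^ p.val) = true).card ≤ 3 := by
  rw [card_cond (fun p : Fin 128 => EE (v.val ^^^ x.val) (v.val ^^^ y.val)
    (v.val ^^^ w.val) (v.val ^^^ w'.val) (v.val ^^^ p.val) = true) _ (fun p => Iff.rfl), sum_c]
  exact sum2 v w w' _ _ (mem_of_adj hvx) (mem_of_adj hvy) (hst_of hxy)

/-- the condition for `h0`, moved to the origin -/
private theorem h0a (c e : Fin 128) : (Finset.univ.filter fun w : Fin 128 × Fin 128 × Fin 128 =>
    hc.Adj w.1 c ∧ hc.Adj w.1 e ∧ hc.Adj w.2.1 c ∧ hc.Adj w.2.1 e ∧ hc.Adj w.2.2 w.1 ∧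
      hc.Adj w.2.2 w.2.1).card = hh (c.val ^^^ e.val) := by
  set s := c.val ^^^ e.val with hs
  rw [card_cond _ (fun w : Fin 128 × Fin 128 × Fin 128 =>
    (isS (c.val ^^^ w.1.val) && isS (s ^^^ (c.val ^^^ w.1.val))) &&
    ((isS (c.val ^^^ w.2.1.val) && isS (s ^^^ (c.val ^^^ w.2.1.val))) &&
    (isS (w.1.val ^^^ w.2.2.val) &&
      isS ((w.1.val ^^^ w.2.2.val) ^^^ ((c.val ^^^ w.1.val) ^^^ (c.val ^^^ w.2.1.val))))))]
  · rw [Fintype.sum_prod_type]
    simp only [Fintype.sum_prod_type]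
    have h1 : ∀ a b : Fin 128, ∑ u : Fin 128, cond
        ((isS (c.val ^^^ a.val) && isS (s ^^^ (c.val ^^^ a.val))) &&
        ((isS (c.val ^^^ b.val) && isS (s ^^^ (c.val ^^^ b.val))) &&
        (isS (a.val ^^^ u.val) &&
          isS ((a.val ^^^ u.val) ^^^ ((c.val ^^^ a.val) ^^^ (c.val ^^^ b.val)))))) 1 0 =
        cond (isS (c.val ^^^ a.val) && isS (s ^^^ (c.val ^^^ a.val)))
        (cond (isS (c.val ^^^ b.val) && isS (s ^^^ (c.val ^^^ b.val)))
          (SL.filter fun u => isS (u ^^^ ((c.val ^^^ a.val) ^^^ (c.val ^^^ b.val)))).length 0) 0 := by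
      intro a b
      simp only [cond_and (isS (c.val ^^^ a.val) && isS (s ^^^ (c.val ^^^ a.val))),
        cond_and (isS (c.val ^^^ b.val) && isS (s ^^^ (c.val ^^^ b.val))), sum_cond]
      rw [sumS1 a (fun u => isS (u ^^^ ((c.val ^^^ a.val) ^^^ (c.val ^^^ b.val))))]
    simp only [h1, sum_cond]
    have h2 : ∀ a : Fin 128, ∑ b : Fin 128,
        cond (isS (c.val ^^^ b.val) && isS (s ^^^ (c.val ^^^ b.val)))
          (SL.filter fun u => isS (u ^^^ ((c.val ^^^ a.val) ^^^ (c.val ^^^ b.val)))).length 0 =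
        ((SL.filter fun b => isS (s ^^^ b)).map fun b =>
          (SL.filter fun u => isS (u ^^^ ((c.val ^^^ a.val) ^^^ b))).length).sum := fun a =>
      sumS c (fun b => isS (s ^^^ b))
        (fun b => (SL.filter fun u => isS (u ^^^ ((c.val ^^^ a.val) ^^^ b))).length)
    simp only [h2]
    exact sumS c (fun a => isS (s ^^^ a)) (fun a => ((SL.filter fun b => isS (s ^^^ b)).map fun b =>
          (SL.filter fun u => isS (u ^^^ (a ^^^ b))).length).sum)
  · intro w
    rw [hs]
    simp only [xx, Bool.and_eq_true]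
    rw [hc.adj_comm w.1 c, hc.adj_comm w.1 e, hc.adj_comm w.2.1 c, hc.adj_comm w.2.1 e,
      hc.adj_comm w.2.2 w.1]
    have h3 : (w.1.val ^^^ w.2.2.val) ^^^ (w.1.val ^^^ w.2.1.val) = w.2.2.val ^^^ w.2.1.val :=
      xx _ _ _
    constructor
    · rintro ⟨a1, a2, a3, a4, a5, a6⟩
      exact ⟨⟨a1, a2⟩, ⟨a3, a4⟩, a5, a6⟩
    · rintro ⟨⟨a1, a2⟩, ⟨a3, a4⟩, a5, a6⟩
      exact ⟨a1, a2, a3, a4, a5, a6⟩

private theorem tria (v x : Fin 128) (h : hc.Adj v x) :
    (Finset.univ.filter fun y => hc.Adj v y ∧ hc.Adj x y).card = 12 := by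
  rw [card_cond _ (fun y : Fin 128 => isS (v.val ^^^ y.val) &&
    isS ((v.val ^^^ x.val) ^^^ (v.val ^^^ y.val)))]
  · rw [sumS1 v (fun n => isS ((v.val ^^^ x.val) ^^^ n))]
    exact chk1 (mem_of_adj h)
  · intro y
    simp only [xx, Bool.and_eq_true]
    exact Iff.rfl

theorem cube : Base hc 12 60 12 3 1560 where
  edge := ⟨0, 1, by show isS (0 ^^^ 1) = true; decide +kernel⟩
  tri := tria
  ext v x y h1 h2 h3 := (card_ext v x y h3).trans
    (chk2 (mem_of_adj h1) (mem_of_adj h2) (hst_of h3)).1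
  ext1 v x y w i h1 h2 h3 := gen1c hc v x y w i 12 (fun a b c => EE (v.val ^^^ x.val)
    (v.val ^^^ y.val) (v.val ^^^ a.val) (v.val ^^^ b.val) (v.val ^^^ c.val) = true)
    (fun z => (ext_iff v x y h3 z).mp) (ext1a v x y w h1 h2 h3)
  ext2 v x y w w' i j h1 h2 h3 h4 := gen2c hc v x y w w' i j h4 3 (fun a b c =>
    EE (v.val ^^^ x.val) (v.val ^^^ y.val) (v.val ^^^ a.val) (v.val ^^^ b.val) (v.val ^^^ c.val) = true)
    (fun z => (ext_iff v x y h3 z).mp) (ext2a v x y w w' h1 h2 h3)
  h0 c e h := (h0a c e).trans_le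
    (Nat.le_of_ble_eq_true (List.all_eq_true.mp hh_true _ (mem_of_adj h)))

end Pool.Agent.H62.FK
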