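import Mathlib

/-!
# Edge Folkman graphs without `H₀` (MP_eb1b1c_co): definitions

`H₀` has the vertices `0, 1` (apexes) and `2, 3, 4` (their common neighbours) and the edge `2 4`: `K₅` minus `01`, `23`, `34`.

* `HE`: the 14 ordered edges of `H₀`. `H0 Adj p`: `p : Fin 5 → V` is an injective copy of `H₀`.
* `on Γ c x y`: the edge `x y` of `Γ` is in the random subgraph given by `c : Sym2 V → Fin r` (`c = 0` on the edge).
* `U Γ c v`: the neighbours of `v`. `cut Γ c R S`: the number of edges of the random subgraph between `R` and `S`; `cut0`: the same for `Γ`.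
* `MC Γ c v`: the maximal cut of the link graph of `v`; `MC0 Γ U`: the maximal cut of `Γ` inside `U`.
* `ex f`: the mean over all `c`.
* `Nn Γ U x y`: the number of `z : Fin 3 → U` such that `x, y, z₀, z₁, z₂` is a clique.
* `Host`: the counts in the host graph.
* `inH Γ c x y`: the edge `x y` is in a copy of `H₀` in the random subgraph; `Gr Γ c`: the random subgraph without these edges;
  `Bad Γ c`: the number of ordered triangles of the random subgraph whose first edge is in a copy of `H₀`.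
-/

set_option autoImplicit false

open scoped Classical

noncomputable section

namespace Pool.Agent.H62.FK

/-- the ordered edges of `H₀` -/
def HE : Finset (Fin 5 × Fin 5) :=
  {(0, 2), (0, 3), (0, 4), (1, 2), (1, 3), (1, 4), (2, 4),
    (2, 0), (3, 0), (4, 0), (2, 1), (3, 1), (4, 1), (4, 2)}

/-- an injective copy of `H₀` -/
def H0 {V : Type} (Adj : V → V → Prop) (p : Fin 5 → V) : Prop :=
  Function.Injective p ∧ ∀ w ∈ HE, Adj (p w.1) (p w.2)

section

variable {V : Type} [Fintype V] (Γ : SimpleGraph V) {r : ℕ} [NeZero r]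

/-- the edges of the random subgraph -/
def on (c : Sym2 V → Fin r) (x y : V) : Prop := Γ.Adj x y ∧ c s(x, y) = 0

/-- the neighbours of `v` in the random subgraph -/
def U (c : Sym2 V → Fin r) (v : V) : Finset V := Finset.univ.filter fun x => on Γ c v x

/-- the number of edges of the random subgraph from `R` to `S` -/
def cut (c : Sym2 V → Fin r) (R S : Finset V) : ℕ := ((R ×ˢ S).filter fun w => on Γ c w.1 w.2).card

/-- the number of edges of `Γ` from `R` to `S` -/
def cut0 (R S : Finset V) : ℕ := ((R ×ˢ S).filter fun w => Γ.Adj w.1 w.2).card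

/-- the maximal cut of the link graph of `v` in the random subgraph -/
def MC (c : Sym2 V → Fin r) (v : V) : ℕ :=
  (U Γ c v).powerset.sup fun R => cut Γ c R (U Γ c v \ R)

/-- the maximal cut of `Γ` inside `W` -/
def MC0 (W : Finset V) : ℕ := W.powerset.sup fun R => cut0 Γ R (W \ R)

/-- the mean -/
def ex (f : (Sym2 V → Fin r) → ℝ) : ℝ := (∑ c, f c) / (r : ℝ) ^ Fintype.card (Sym2 V)

/-- the number of ordered triangles of a graph -/
def Tri (Adj : V → V → Prop) : ℕ :=
  (Finset.univ.filter fun w : V × V × V => Adj w.1 w.2.1 ∧ Adj w.2.1 w.2.2 ∧ Adj w.1 w.2.2).card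

/-- `x, y, z₀, z₁, z₂` is a clique -/
def Cl (x y : V) (z : Fin 3 → V) : Prop :=
  Γ.Adj x y ∧ (∀ i, Γ.Adj x (z i)) ∧ (∀ i, Γ.Adj y (z i)) ∧ ∀ i j, i ≠ j → Γ.Adj (z i) (z j)

/-- the number of `z` with values in `W` such that `x, y, z₀, z₁, z₂` is a clique -/
def Nn (W : Finset V) (x y : V) : ℕ :=
  (Finset.univ.filter fun z : Fin 3 → V => (∀ i, z i ∈ W) ∧ Cl Γ x y z).card

/-- the extensions of `v, x, y` to a clique of six vertices -/
def Ext (v x y : V) : Finset (Fin 3 → V) :=
  Finset.univ.filter fun z => (∀ i, Γ.Adj v (z i)) ∧ Cl Γ x y z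

/-- the edge `x y` is in a copy of `H₀` in the random subgraph -/
def inH (c : Sym2 V → Fin r) (x y : V) : Prop :=
  ∃ p : Fin 5 → V, H0 (on Γ c) p ∧ ∃ w ∈ HE, p w.1 = x ∧ p w.2 = y

/-- the random subgraph without the edges of the copies of `H₀` -/
def Gr (c : Sym2 V → Fin r) (x y : V) : Prop := on Γ c x y ∧ ¬ inH Γ c x y

/-- the number of ordered triangles of the random subgraph whose first edge is in a copy of `H₀` -/
def Bad (c : Sym2 V → Fin r) : ℕ :=
  (Finset.univ.filter fun w : V × V × V => on Γ c w.1 w.2.1 ∧ on Γ c w.2.1 w.2.2 ∧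
    on Γ c w.1 w.2.2 ∧ inH Γ c w.1 w.2.1).card

/-- the number of ordered edges of `Γ` -/
def Ed : ℕ := (Finset.univ.filter fun w : V × V => Γ.Adj w.1 w.2).card

/-- the counts in the host graph -/
structure Host (D κ κ₁ κ₂ s : ℕ) : Prop where
  edge : ∃ x y, Γ.Adj x y
  tri : ∀ v x, Γ.Adj v x → (Finset.univ.filter fun y => Γ.Adj v y ∧ Γ.Adj x y).card = D
  ext : ∀ v x y, Γ.Adj v x → Γ.Adj v y → Γ.Adj x y → (Ext Γ v x y).card = κ
  ext1 : ∀ v x y w, Γ.Adj v x → Γ.Adj v y → Γ.Adj x y →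
    ((Ext Γ v x y).filter fun z => ∃ i, z i = w).card ≤ κ₁
  ext2 : ∀ v x y w w', Γ.Adj v x → Γ.Adj v y → Γ.Adj x y → w ≠ w' →
    ((Ext Γ v x y).filter fun z => (∃ i, z i = w) ∧ ∃ i, z i = w').card ≤ κ₂
  h0 : ∀ c e, Γ.Adj c e → (Finset.univ.filter fun w : V × V × V =>
    Γ.Adj w.1 c ∧ Γ.Adj w.1 e ∧ Γ.Adj w.2.1 c ∧ Γ.Adj w.2.1 e ∧ Γ.Adj w.2.2 w.1 ∧
      Γ.Adj w.2.2 w.2.1).card ≤ s

end

end Pool.Agent.H62.FK
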