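import Pool.Agent.H62.FK.Abs
import Pool.Agent.H62.FK.Cube

/-!
# Edge Folkman graphs without `H₀` (MP_eb1b1c_co): the theorem

`fk`: there is a graph with `128 ^ 300 = 2 ^ 2100` vertices without `H₀` such that every colouring of the edges with two colours has a monochromatic triangle.
-/

set_option autoImplicit false
set_option exponentiation.threshold 500

open scoped Classical

noncomputable section

namespace Pool.Agent.H62.FK

private theorem num_exp : (Real.exp (3 / 50) - 1) / (3 / 50) ≤ 53 / 50 := by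
  rw [div_le_iff₀ (by norm_num)]
  have h := Real.abs_exp_sub_one_sub_id_le (x := 3 / 50) (by rw [abs_of_nonneg] <;> norm_num)
  have h2 := (abs_le.1 h).2
  linarith

theorem fk : ∃ A : SimpleGraph (Fin (299 + 1) → Fin 128), (¬ ∃ p, H0 A.Adj p) ∧
    ∀ f : (Fin (299 + 1) → Fin 128) → (Fin (299 + 1) → Fin 128) → Bool,
      (∀ x y, A.Adj x y → f x y = f y x) →
        ∃ x y z, A.Adj x y ∧ A.Adj y z ∧ A.Adj x z ∧ f x y = f y z ∧ f y z = f x z := by
  have h := tensor hc cube 299
  have hr : NeZero (4 * 12 ^ 148) := ⟨by positivity⟩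
  have e1 := num_exp
  refine abs_thm (tp hc 299) (r := 4 * 12 ^ 148) h (by positivity) (3 / 50) (1 / 1000) (1 / 10 ^ 6)
    (by norm_num) (by norm_num) ?_ ?_
  · push_cast
    rw [div_le_div_iff₀ (by positivity) (by positivity)]
    norm_num
  · have e2 : (Real.exp (3 / 50) - 1) / (3 / 50) * (((12 ^ (299 + 1) : ℕ) : ℝ) / ((4 * 12 ^ 148 : ℕ) : ℝ) ^ 2) *
        (3 / 10 + 1 / 1000 + 1 / 10 ^ 6 / (4 * (1 / 1000))) ≤
        (53 / 50) * (((12 ^ (299 + 1) : ℕ) : ℝ) / ((4 * 12 ^ 148 : ℕ) : ℝ) ^ 2) *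
        (3 / 10 + 1 / 1000 + 1 / 10 ^ 6 / (4 * (1 / 1000))) := by
      refine mul_le_mul_of_nonneg_right (mul_le_mul_of_nonneg_right e1 (by positivity))
        (by norm_num)
    have e3 : Real.log 2 / (3 / 50) ≤ 0.6932 / (3 / 50) :=
      div_le_div_of_nonneg_right (by linarith [Real.log_two_lt_d9]) (by norm_num)
    refine lt_of_le_of_lt (add_le_add (mul_le_mul_of_nonneg_left (add_le_add e2 e3)
      (by norm_num)) le_rfl) ?_
    push_cast
    norm_num

end Pool.Agent.H62.FK
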