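import Pool.Agent.H62.FK.Def

/-!
# Edge Folkman graphs without `H₀` (MP_eb1b1c_co): means

`sum_prod`, `sum_prod'` (any `DecidableEq`, use this one for `Sym2 V`): the sum over all `c` of a product. `ex_zero`: the probability that `c = 0` on `S`. `ex_add`, `ex_mul`, `ex_mono`, `ex_sum`, `ex_one`: linearity.
`ex_pos`: if the mean is positive then some value is positive.
Proof of `sum_prod`: `Finset.prod_univ_sum` and `Fintype.piFinset_univ`. `ex_zero`: `sum_prod` with `F e j = if e ∈ S then (if j = 0 then 1 else 0) else 1`.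
-/

set_option autoImplicit false

open scoped Classical

noncomputable section

namespace Pool.Agent.H62.FK

theorem sum_prod' {ι : Type} [Fintype ι] [DecidableEq ι] {r : ℕ} (F : ι → Fin r → ℝ) :
    ∑ c : ι → Fin r, ∏ e, F e (c e) = ∏ e, ∑ j, F e j := by
  rw [Finset.prod_univ_sum, Fintype.piFinset_univ]

theorem sum_prod {ι : Type} [Fintype ι] {r : ℕ} (F : ι → Fin r → ℝ) :
    ∑ c : ι → Fin r, ∏ e, F e (c e) = ∏ e, ∑ j, F e j := sum_prod' F

section

variable {V : Type} [Fintype V] {r : ℕ} [NeZero r]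

theorem rpos : (0 : ℝ) < (r : ℝ) := Nat.cast_pos.2 (Nat.pos_of_ne_zero (NeZero.ne r))

theorem ex_zero (S : Finset (Sym2 V)) :
    ex (fun c : Sym2 V → Fin r => if ∀ e ∈ S, c e = 0 then (1 : ℝ) else 0) =
      (1 / (r : ℝ)) ^ S.card := by
  have hr : (r : ℝ) ≠ 0 := (rpos (r := r)).ne'
  have h1 : ∀ c : Sym2 V → Fin r, (if ∀ e ∈ S, c e = 0 then (1 : ℝ) else 0) =
      ∏ e, (if e ∈ S then (if c e = 0 then (1 : ℝ) else 0) else 1) := by
    intro c
    split_ifs with h
    · refine (Finset.prod_eq_one fun e _ => ?_).symm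
      split_ifs with h2 h3
      · rfl
      · exact absurd (h e h2) h3
      · rfl
    · push Not at h
      obtain ⟨e, he, hc⟩ := h
      refine (Finset.prod_eq_zero (Finset.mem_univ e) ?_).symm
      rw [if_pos he, if_neg hc]
  have h2 : ∀ e : Sym2 V, ∑ j : Fin r, (if e ∈ S then (if j = 0 then (1 : ℝ) else 0) else 1) =
      if e ∈ S then 1 else (r : ℝ) := by
    intro e
    split_ifs with h
    · rw [Finset.sum_ite_eq' Finset.univ (0 : Fin r) (fun _ => (1 : ℝ)), if_pos (Finset.mem_univ _)]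
    · rw [Finset.sum_const, Finset.card_univ, Fintype.card_fin, nsmul_eq_mul, mul_one]
  unfold ex
  rw [Finset.sum_congr rfl fun c _ => h1 c,
    sum_prod' fun (e : Sym2 V) (j : Fin r) => if e ∈ S then (if j = 0 then (1 : ℝ) else 0) else 1,
    Finset.prod_congr rfl fun e _ => h2 e, Finset.prod_ite, Finset.prod_const_one, one_mul,
    Finset.prod_const]
  have h3 : (Finset.univ.filter fun e : Sym2 V => e ∉ S).card + S.card =
      Fintype.card (Sym2 V) := by
    have h4 : (Finset.univ.filter fun e : Sym2 V => e ∉ S) = Finset.univ \ S := by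
      ext e
      simp
    rw [h4, Finset.card_sdiff_of_subset (Finset.subset_univ S), Finset.card_univ]
    exact Nat.sub_add_cancel (Finset.card_le_univ S)
  rw [← h3, pow_add, one_div, inv_pow, div_mul_eq_div_div, div_self (pow_ne_zero _ hr), one_div]

theorem ex_add (f g : (Sym2 V → Fin r) → ℝ) : ex (fun c => f c + g c) = ex f + ex g := by
  unfold ex
  rw [Finset.sum_add_distrib, add_div]

theorem ex_mul (a : ℝ) (f : (Sym2 V → Fin r) → ℝ) : ex (fun c => a * f c) = a * ex f := by
  unfold ex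
  rw [← Finset.mul_sum, mul_div_assoc]

theorem ex_sub (f g : (Sym2 V → Fin r) → ℝ) : ex (fun c => f c - g c) = ex f - ex g := by
  unfold ex
  rw [Finset.sum_sub_distrib, sub_div]

theorem ex_mono {f g : (Sym2 V → Fin r) → ℝ} (h : ∀ c, f c ≤ g c) : ex f ≤ ex g := by
  unfold ex
  exact div_le_div_of_nonneg_right (Finset.sum_le_sum fun c _ => h c)
    (pow_nonneg (rpos (r := r)).le _)

theorem ex_sum {ι : Type} (s : Finset ι) (f : ι → (Sym2 V → Fin r) → ℝ) :
    ex (fun c => ∑ i ∈ s, f i c) = ∑ i ∈ s, ex (f i) := by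
  unfold ex
  rw [Finset.sum_comm, Finset.sum_div]

theorem ex_one (a : ℝ) : ex (fun _ : Sym2 V → Fin r => a) = a := by
  have hr : (r : ℝ) ≠ 0 := (rpos (r := r)).ne'
  unfold ex
  rw [Finset.sum_const, Finset.card_univ, Fintype.card_fun, Fintype.card_fin, nsmul_eq_mul]
  push_cast
  rw [mul_comm, mul_div_assoc, div_self (pow_ne_zero _ hr), mul_one]

theorem ex_pos {f : (Sym2 V → Fin r) → ℝ} (h : 0 < ex f) : ∃ c, 0 < f c := by
  by_contra hcon
  push Not at hcon
  have h1 := ex_mono hcon
  rw [ex_one] at h1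
  linarith

end

end Pool.Agent.H62.FK
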