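import Pool.Agent.H62.FK.Def

/-!
# Edge Folkman graphs without `H₀` (MP_eb1b1c_co): tensor powers

`tp B m`: the tensor power on `Fin (m + 1) → W`. `tensor`: all counts are powers.
Proof. Every set which is counted in `Host` (for `ext1`, `ext2` after the choice of the places `i`, `j`: 3 resp. 6 of them) is `{g : ∀ l, P l (g at l)}` under the equivalences
`(Fin 3 → Fin (m + 1) → W) ≃ (Fin (m + 1) → Fin 3 → W)`, `V × V × V ≃ (Fin (m + 1) → W × W × W)`: `Fintype.card_piFinset`, `Finset.prod_le_prod'`/`Finset.prod_const`.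
-/

set_option autoImplicit false

open scoped Classical

noncomputable section

namespace Pool.Agent.H62.FK

variable {W : Type} [Fintype W]

/-- the counts in the base graph -/
structure Base (B : SimpleGraph W) (D κ κ₁ κ₂ s : ℕ) : Prop where
  edge : ∃ x y, B.Adj x y
  tri : ∀ v x, B.Adj v x → (Finset.univ.filter fun y => B.Adj v y ∧ B.Adj x y).card = D
  ext : ∀ v x y, B.Adj v x → B.Adj v y → B.Adj x y → (Ext B v x y).card = κ
  ext1 : ∀ v x y w i, B.Adj v x → B.Adj v y → B.Adj x y →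
    ((Ext B v x y).filter fun z => z i = w).card ≤ κ₁
  ext2 : ∀ v x y w w' i j, B.Adj v x → B.Adj v y → B.Adj x y → i ≠ j →
    ((Ext B v x y).filter fun z => z i = w ∧ z j = w').card ≤ κ₂
  h0 : ∀ c e, B.Adj c e → (Finset.univ.filter fun w : W × W × W =>
    B.Adj w.1 c ∧ B.Adj w.1 e ∧ B.Adj w.2.1 c ∧ B.Adj w.2.1 e ∧ B.Adj w.2.2 w.1 ∧
      B.Adj w.2.2 w.2.1).card ≤ s

/-- the tensor power -/
def tp (B : SimpleGraph W) (m : ℕ) : SimpleGraph (Fin (m + 1) → W) where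
  Adj x y := ∀ i, B.Adj (x i) (y i)
  symm := ⟨fun _ _ h i => (h i).symm⟩
  loopless := ⟨fun _ h => (h 0).ne rfl⟩

private theorem card_all {S : Type} [Fintype S] {N : ℕ} (P : Fin N → S → Prop)
    [∀ l, DecidablePred (P l)] [DecidablePred fun g : Fin N → S => ∀ l, P l (g l)] :
    (Finset.univ.filter fun g : Fin N → S => ∀ l, P l (g l)).card =
      ∏ l, (Finset.univ.filter (P l)).card := by
  rw [← Fintype.card_piFinset]
  refine congrArg Finset.card (Finset.ext fun g => ?_)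
  simp only [Finset.mem_filter, Finset.mem_univ, true_and, Fintype.mem_piFinset]

private theorem card_swap {S V : Type} [Fintype S] [Fintype V] {N : ℕ} (e : V ≃ (Fin N → S))
    (P : Fin N → S → Prop) (Q : V → Prop) (hQ : ∀ v, Q v ↔ ∀ l, P l (e v l))
    [∀ l, DecidablePred (P l)] [DecidablePred Q] :
    (Finset.univ.filter Q).card = ∏ l, (Finset.univ.filter (P l)).card := by
  rw [← card_all P]
  exact Finset.card_equiv e fun v => by
    simp only [Finset.mem_filter, Finset.mem_univ, true_and, hQ]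

private theorem of_filter {T : Type} {s : Finset T} {p : T → Prop} {inst : DecidablePred p} {a : T}
    (h : a ∈ @Finset.filter T p inst s) : a ∈ s ∧ p a := Finset.mem_filter.1 h

private theorem to_filter {T : Type} {s : Finset T} {p : T → Prop} {inst : DecidablePred p} {a : T}
    (h : a ∈ s ∧ p a) : a ∈ @Finset.filter T p inst s := Finset.mem_filter.2 h

private theorem card_cover {T ι : Type} (S : Finset T) (I : Finset ι) (F : ι → Finset T) (b : ℕ)
    (hc : ∀ z ∈ S, ∃ i ∈ I, z ∈ F i) (hb : ∀ i ∈ I, (F i).card ≤ b) : S.card ≤ I.card * b := by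
  have h : S ⊆ I.biUnion F := fun z hz => by
    obtain ⟨i, hi, hzi⟩ := hc z hz
    exact Finset.mem_biUnion.2 ⟨i, hi, hzi⟩
  exact (Finset.card_le_card h).trans (Finset.card_biUnion_le_card_mul _ _ _ hb)

private theorem mem_Ext' {V : Type} [Fintype V] (Γ : SimpleGraph V) (v x y : V)
    (z : Fin 3 → V) : z ∈ Ext Γ v x y ↔ (∀ i, Γ.Adj v (z i)) ∧ Cl Γ x y z := by
  unfold Ext
  simp only [Finset.mem_filter, Finset.mem_univ, true_and]

private theorem mem_Ext (B : SimpleGraph W) (m : ℕ) (v x y : Fin (m + 1) → W)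
    (z : Fin 3 → Fin (m + 1) → W) :
    z ∈ Ext (tp B m) v x y ↔ ∀ l, (fun i => z i l) ∈ Ext B (v l) (x l) (y l) := by
  simp only [mem_Ext']
  constructor
  · rintro ⟨h1, h2, h3, h4, h5⟩ l
    exact ⟨fun i => h1 i l, h2 l, fun i => h3 i l, fun i => h4 i l, fun i j hij => h5 i j hij l⟩
  · intro h
    exact ⟨fun i l => (h l).1 i, fun l => (h l).2.1, fun i l => (h l).2.2.1 i,
      fun i l => (h l).2.2.2.1 i, fun i j hij l => (h l).2.2.2.2 i j hij⟩

private def trip (W : Type) (N : ℕ) :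
    ((Fin N → W) × (Fin N → W) × (Fin N → W)) ≃ (Fin N → W × W × W) where
  toFun w l := (w.1 l, w.2.1 l, w.2.2 l)
  invFun g := (fun l => (g l).1, fun l => (g l).2.1, fun l => (g l).2.2)
  left_inv _ := rfl
  right_inv _ := rfl

theorem tensor (B : SimpleGraph W) {D κ κ₁ κ₂ s : ℕ} (h : Base B D κ κ₁ κ₂ s) (m : ℕ) :
    Host (tp B m) (D ^ (m + 1)) (κ ^ (m + 1)) (3 * κ₁ ^ (m + 1)) (6 * κ₂ ^ (m + 1))
      (s ^ (m + 1)) := by
  have hpow : ∀ (f : Fin (m + 1) → ℕ) (t : ℕ), (∀ l, f l = t) → ∏ l, f l = t ^ (m + 1) := by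
    intro f t hf
    rw [Finset.prod_congr rfl fun l _ => hf l, Finset.prod_const, Finset.card_univ,
      Fintype.card_fin]
  have hpow' : ∀ (f : Fin (m + 1) → ℕ) (t : ℕ), (∀ l, f l ≤ t) → ∏ l, f l ≤ t ^ (m + 1) := by
    intro f t hf
    refine (Finset.prod_le_prod' fun l _ => hf l).trans (le_of_eq ?_)
    rw [Finset.prod_const, Finset.card_univ, Fintype.card_fin]
  refine ⟨?_, ?_, ?_, ?_, ?_, ?_⟩
  · obtain ⟨x, y, hxy⟩ := h.edge
    exact ⟨fun _ => x, fun _ => y, fun _ => hxy⟩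
  · intro v x hvx
    rw [card_swap (Equiv.refl _) (fun l y => B.Adj (v l) y ∧ B.Adj (x l) y)
      (fun y => (tp B m).Adj v y ∧ (tp B m).Adj x y)
      (fun y => ⟨fun hy l => ⟨hy.1 l, hy.2 l⟩, fun hy => ⟨fun l => (hy l).1, fun l => (hy l).2⟩⟩)]
    exact hpow _ _ fun l => h.tri (v l) (x l) (hvx l)
  · intro v x y h1 h2 h3
    have h4 : Ext (tp B m) v x y = Finset.univ.filter fun z => z ∈ Ext (tp B m) v x y := by
      ext z; simp only [Finset.mem_filter, Finset.mem_univ, true_and]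
    rw [h4, card_swap (Equiv.piComm _) (fun l a => a ∈ Ext B (v l) (x l) (y l)) _
      (fun z => mem_Ext B m v x y z)]
    refine hpow _ _ fun l => ?_
    rw [Finset.filter_mem_eq_inter, Finset.univ_inter]
    exact h.ext (v l) (x l) (y l) (h1 l) (h2 l) (h3 l)
  · intro v x y w h1 h2 h3
    obtain ⟨P, hP⟩ : ∃ P : Fin 3 → (Fin 3 → Fin (m + 1) → W) → Prop,
        ∀ i z, P i z ↔ z ∈ Ext (tp B m) v x y ∧ z i = w := ⟨_, fun _ _ => Iff.rfl⟩
    obtain ⟨R, hR⟩ : ∃ R : Fin 3 → Fin (m + 1) → (Fin 3 → W) → Prop,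
        ∀ i l a, R i l a ↔ a ∈ Ext B (v l) (x l) (y l) ∧ a i = w l := ⟨_, fun _ _ _ => Iff.rfl⟩
    have h5 : ∀ i ∈ (Finset.univ : Finset (Fin 3)), (Finset.univ.filter (P i)).card ≤
        κ₁ ^ (m + 1) := by
      intro i _
      rw [card_swap (Equiv.piComm _) (R i) (P i) (fun z => by
        rw [hP, mem_Ext]
        exact ⟨fun hz l => (hR i l _).2 ⟨hz.1 l, congrFun hz.2 l⟩,
          fun hz => ⟨fun l => ((hR i l _).1 (hz l)).1, funext fun l => ((hR i l _).1 (hz l)).2⟩⟩)]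
      refine hpow' _ _ fun l => ?_
      refine le_trans (Finset.card_le_card fun z hz => ?_)
        (h.ext1 (v l) (x l) (y l) (w l) i (h1 l) (h2 l) (h3 l))
      exact to_filter ((hR i l z).1 (of_filter hz).2)
    refine (card_cover _ (Finset.univ : Finset (Fin 3)) (fun i => Finset.univ.filter (P i))
      (κ₁ ^ (m + 1)) (fun z hz => ?_) h5).trans (le_of_eq ?_)
    · obtain ⟨hz1, i, hi⟩ := of_filter hz
      exact ⟨i, Finset.mem_univ _, Finset.mem_filter.2 ⟨Finset.mem_univ _, (hP i z).2 ⟨hz1, hi⟩⟩⟩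
    · rw [Finset.card_univ, Fintype.card_fin]
  · intro v x y w w' h1 h2 h3 hw
    obtain ⟨P, hP⟩ : ∃ P : Fin 3 × Fin 3 → (Fin 3 → Fin (m + 1) → W) → Prop,
        ∀ p z, P p z ↔ z ∈ Ext (tp B m) v x y ∧ z p.1 = w ∧ z p.2 = w' :=
      ⟨_, fun _ _ => Iff.rfl⟩
    obtain ⟨R, hR⟩ : ∃ R : Fin 3 × Fin 3 → Fin (m + 1) → (Fin 3 → W) → Prop,
        ∀ p l a, R p l a ↔ a ∈ Ext B (v l) (x l) (y l) ∧ a p.1 = w l ∧ a p.2 = w' l :=
      ⟨_, fun _ _ _ => Iff.rfl⟩
    have h5 : ∀ p ∈ (Finset.univ : Finset (Fin 3)).offDiag, (Finset.univ.filter (P p)).card ≤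
        κ₂ ^ (m + 1) := by
      intro p hp
      have hp' := (Finset.mem_offDiag.1 hp).2.2
      rw [card_swap (Equiv.piComm _) (R p) (P p) (fun z => by
        rw [hP, mem_Ext]
        exact ⟨fun hz l => (hR p l _).2 ⟨hz.1 l, congrFun hz.2.1 l, congrFun hz.2.2 l⟩,
          fun hz => ⟨fun l => ((hR p l _).1 (hz l)).1, funext fun l => ((hR p l _).1 (hz l)).2.1,
            funext fun l => ((hR p l _).1 (hz l)).2.2⟩⟩)]
      refine hpow' _ _ fun l => ?_
      refine le_trans (Finset.card_le_card fun z hz => ?_)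
        (h.ext2 (v l) (x l) (y l) (w l) (w' l) p.1 p.2 (h1 l) (h2 l) (h3 l) hp')
      exact to_filter ((hR p l z).1 (of_filter hz).2)
    refine (card_cover _ (Finset.univ : Finset (Fin 3)).offDiag
      (fun p => Finset.univ.filter (P p)) (κ₂ ^ (m + 1)) (fun z hz => ?_) h5).trans
      (le_of_eq ?_)
    · obtain ⟨hz1, ⟨i, hi⟩, j, hj⟩ := of_filter hz
      refine ⟨(i, j), Finset.mem_offDiag.2 ⟨Finset.mem_univ _, Finset.mem_univ _, ?_⟩,
        Finset.mem_filter.2 ⟨Finset.mem_univ _, (hP (i, j) z).2 ⟨hz1, hi, hj⟩⟩⟩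
      intro hij
      change i = j at hij
      exact hw (hi.symm.trans (by rw [hij]; exact hj))
    · rw [Finset.offDiag_card, Finset.card_univ, Fintype.card_fin]
  · intro c e hce
    rw [card_swap (trip W (m + 1)) (fun l w => B.Adj w.1 (c l) ∧ B.Adj w.1 (e l) ∧
        B.Adj w.2.1 (c l) ∧ B.Adj w.2.1 (e l) ∧ B.Adj w.2.2 w.1 ∧ B.Adj w.2.2 w.2.1)
      (fun w => (tp B m).Adj w.1 c ∧ (tp B m).Adj w.1 e ∧ (tp B m).Adj w.2.1 c ∧
        (tp B m).Adj w.2.1 e ∧ (tp B m).Adj w.2.2 w.1 ∧ (tp B m).Adj w.2.2 w.2.1)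
      (fun w => ⟨fun hw l => ⟨hw.1 l, hw.2.1 l, hw.2.2.1 l, hw.2.2.2.1 l, hw.2.2.2.2.1 l,
          hw.2.2.2.2.2 l⟩,
        fun hw => ⟨fun l => (hw l).1, fun l => (hw l).2.1, fun l => (hw l).2.2.1,
          fun l => (hw l).2.2.2.1, fun l => (hw l).2.2.2.2.1, fun l => (hw l).2.2.2.2.2⟩⟩)]
    exact hpow' _ _ fun l => h.h0 (c l) (e l) (hce l)

end Pool.Agent.H62.FK
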